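import Mathlib

/-!
MODULE avg (S). The mean of the square root of the number of cells whose chosen element is in `A`.

Proof. `∑_c #{q | e.symm (q, c q) ∈ A} = m^(K-1) |A|` (for each `q` and each `p` the number of `c` with
`c q = p` is `m^(K-1)`). `√n ≤ n` for natural `n` gives the first bound, Cauchy-Schwarz
(`∑_c √n_c ≤ √(m^K ∑_c n_c)`) the second one. If `K = 0` then `G` is empty and everything is `0`.
Here `m ≥ 1`.
-/

set_option autoImplicit false

namespace Pool.Agent.Emd

open Finset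

private theorem avg_one {K m : ℕ} (q : Fin K) (g : Fin m → ℝ) :
    (∑ c : Fin K → Fin m, g (c q)) * m = (m : ℝ) ^ K * ∑ p, g p := by
  have h1 : ∑ c : Fin K → Fin m, g (c q) =
      ∑ x : Fin m × ({j // j ≠ q} → Fin m), g x.1 := by
    refine Fintype.sum_equiv (Equiv.funSplitAt q (Fin m)) _ _ fun c => ?_
    simp [Equiv.funSplitAt, Equiv.piSplitAt]
  have hK : 0 < K := by have := q.2; omega
  have hcard : Fintype.card ({j // j ≠ q} → Fin m) = m ^ (K - 1) := by
    rw [Fintype.card_fun, Fintype.card_fin]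
    congr 1
    simp [Fintype.card_subtype_compl]
  rw [h1, Fintype.sum_prod_type]
  simp only [sum_const, card_univ, hcard, nsmul_eq_mul, Nat.cast_pow]
  rw [← Finset.mul_sum]
  obtain ⟨K', rfl⟩ : ∃ K', K = K' + 1 := ⟨K - 1, by omega⟩
  simp only [Nat.add_sub_cancel]
  ring

private theorem avg_total {G : Type} [Fintype G] [DecidableEq G] {K m : ℕ} (hm : 1 ≤ m)
    (e : G ≃ Fin K × Fin m) (A : Finset G) :
    ∑ c : Fin K → Fin m, ((univ.filter fun q : Fin K => e.symm (q, c q) ∈ A).card : ℝ) =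
      (m : ℝ) ^ K * ((A.card : ℝ) / m) := by
  have hm0 : (m : ℝ) ≠ 0 := by positivity
  have h1 : ∀ c : Fin K → Fin m, ((univ.filter fun q : Fin K => e.symm (q, c q) ∈ A).card : ℝ) =
      ∑ q : Fin K, (if e.symm (q, c q) ∈ A then (1 : ℝ) else 0) := by
    intro c
    rw [card_filter]
    push_cast
    rfl
  simp only [h1]
  rw [sum_comm]
  have h2 : ∀ q : Fin K, ∑ c : Fin K → Fin m, (if e.symm (q, c q) ∈ A then (1 : ℝ) else 0) =
      (m : ℝ) ^ K / m * ∑ p : Fin m, (if e.symm (q, p) ∈ A then (1 : ℝ) else 0) := by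
    intro q
    have := avg_one q (fun p : Fin m => if e.symm (q, p) ∈ A then (1 : ℝ) else 0)
    field_simp
    simpa using this
  simp only [h2]
  rw [← mul_sum]
  have h3 : ∑ q : Fin K, ∑ p : Fin m, (if e.symm (q, p) ∈ A then (1 : ℝ) else 0) = A.card := by
    rw [← Fintype.sum_prod_type (f := fun x : Fin K × Fin m => if e.symm x ∈ A then (1 : ℝ) else 0)]
    rw [Equiv.sum_comp e.symm (fun x => if x ∈ A then (1 : ℝ) else 0)]
    simp
  rw [h3]
  ring

theorem avg_sqrt {G : Type} [Fintype G] [DecidableEq G] {K m : ℕ} (hm : 1 ≤ m)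
    (e : G ≃ Fin K × Fin m) (A : Finset G) :
    ∑ c : Fin K → Fin m, Real.sqrt ((univ.filter fun q : Fin K => e.symm (q, c q) ∈ A).card : ℝ) ≤
      (m : ℝ) ^ K * min ((A.card : ℝ) / m) (Real.sqrt ((A.card : ℝ) / m)) := by
  have htot := avg_total hm e A
  have hmK : (0 : ℝ) ≤ (m : ℝ) ^ K := by positivity
  rcases min_choice ((A.card : ℝ) / m) (Real.sqrt ((A.card : ℝ) / m)) with h | h
  · rw [h, ← htot]
    refine sum_le_sum fun c _ => ?_
    set n : ℕ := (univ.filter fun q : Fin K => e.symm (q, c q) ∈ A).card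
    rcases Nat.eq_zero_or_pos n with h0 | h0
    · rw [h0]; simp
    · have h1 : (1 : ℝ) ≤ n := by exact_mod_cast h0
      rw [Real.sqrt_le_left (by linarith)]
      nlinarith
  · rw [h]
    set f : (Fin K → Fin m) → ℝ :=
      fun c => ((univ.filter fun q : Fin K => e.symm (q, c q) ∈ A).card : ℝ) with hf
    have hf0 : ∀ c, 0 ≤ f c := fun c => by positivity
    have hcs : (∑ c : Fin K → Fin m, Real.sqrt (f c)) ^ 2 ≤ (m : ℝ) ^ K * ∑ c, f c := by
      have h1 := sum_mul_sq_le_sq_mul_sq (univ : Finset (Fin K → Fin m)) (fun _ => (1 : ℝ))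
        (fun c => Real.sqrt (f c))
      simp only [one_mul, one_pow, sum_const, card_univ, Fintype.card_fun, Fintype.card_fin,
        nsmul_eq_mul, mul_one, Nat.cast_pow] at h1
      refine h1.trans (le_of_eq ?_)
      congr 1
      exact sum_congr rfl fun c _ => Real.sq_sqrt (hf0 c)
    have h2 : (∑ c : Fin K → Fin m, Real.sqrt (f c)) ^ 2 ≤
        ((m : ℝ) ^ K * Real.sqrt ((A.card : ℝ) / m)) ^ 2 := by
      refine hcs.trans (le_of_eq ?_)
      rw [mul_pow, Real.sq_sqrt (by positivity), htot]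
      ring
    exact (pow_le_pow_iff_left₀ (sum_nonneg fun c _ => Real.sqrt_nonneg _) (by positivity)
      (by norm_num : (2 : ℕ) ≠ 0)).1 h2

end Pool.Agent.Emd
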