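import Pool.Agent.Emd.Conf
import Pool.Agent.GrO.St0

/-!
MODULE cf (M). The point sets of the configurations.

`P (a, b)` are the two slots of the site `a`, `Q` is the reservoir (`|G| + 1` points), `Z` are the fixed
points. `St o` contains the occupied slots, the first `|G| + 1 - #o` points of the reservoir and `Z`.

`card_St`: `#(emb z) = #z ≤ |G|`, `#(add z a) = #z + 1 ≤ |G| + 1`; the three parts are disjoint.
`W1_add`: `St (add z a) = insert (P (a, z a)) C`, `St (emb z) = insert (Q t) C` with `t = |G| - #z` and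
`C = (St (emb z)).erase (Q t)`; `GrO.W1_insert`.
`W1_adj`: `St (add z a') = insert (P (a', z a')) C`, `St (add z a) = insert (P (a, z a)) C`, same `C`.
(Compare `GrO.St0`, the same statements for another kind of configurations.)
-/

set_option autoImplicit false

namespace Pool.Agent.Emd

open Finset Pool.Agent.MP_12e089_an Pool.Agent.KhN Pool.Agent.GrO

/-- Slots, reservoir and fixed points. -/
structure Cf (G : Type) [Fintype G] (M : Type) (s : ℕ) where
  P : G × Bool → M
  Q : Fin (Fintype.card G + 1) → M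
  Z : Finset M
  P_inj : Function.Injective P
  Q_inj : Function.Injective Q
  PQ : ∀ p t, P p ≠ Q t
  PZ : ∀ p, P p ∉ Z
  QZ : ∀ t, Q t ∉ Z
  card_Z : Z.card + (Fintype.card G + 1) = s

variable {G : Type} [Fintype G] [DecidableEq G] {M : Type} [Fintype M] [DecidableEq M] {s : ℕ}

/-- The number of particles. -/
def npt (o : Occ G) : ℕ := (univ.filter fun p : G × Bool => o p = true).card

/-- The point set of a configuration. -/
def Cf.St (c : Cf G M s) (o : Occ G) : Finset M :=
  (univ.filter fun p : G × Bool => o p = true).image c.P ∪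
    (univ.filter fun t : Fin (Fintype.card G + 1) =>
      (t : ℕ) < Fintype.card G + 1 - npt o).image c.Q ∪ c.Z

/-- The number of ones. -/
def ones (z : G → Bool) : ℕ := (univ.filter fun a : G => z a = true).card

omit [DecidableEq G] in
private theorem cf_ones_le (z : G → Bool) : ones z ≤ Fintype.card G := card_le_univ _

omit [Fintype G] [DecidableEq G] in
private theorem cf_emb_new (z : G → Bool) (a : G) : emb z (a, z a) = false := by
  unfold emb
  cases z a <;> simp

private theorem cf_npt_update (o : Occ G) {p : G × Bool} (hp : o p = false) :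
    npt (Function.update o p true) = npt o + 1 := by
  unfold npt
  have h1 : (univ.filter fun q : G × Bool => Function.update o p true q = true) =
      insert p (univ.filter fun q : G × Bool => o q = true) := by
    ext q
    rw [mem_filter, mem_insert, mem_filter]
    by_cases h : q = p
    · subst h
      simp
    · rw [Function.update_of_ne h]
      simp [h]
  rw [h1, card_insert_of_notMem]
  rw [mem_filter]
  simp [hp]

theorem npt_emb (z : G → Bool) : npt (emb z) = ones z := by
  unfold npt ones
  have h1 : (univ.filter fun p : G × Bool => emb z p = true) =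
      (univ.filter fun a : G => z a = true).image fun a => (a, false) := by
    ext ⟨a, b⟩
    rw [mem_filter, mem_image]
    unfold emb
    constructor
    · rintro ⟨-, h⟩
      cases b
      · exact ⟨a, by simpa using h, rfl⟩
      · simp at h
    · rintro ⟨a', h, h'⟩
      rw [Prod.mk.injEq] at h'
      obtain ⟨rfl, rfl⟩ := h'
      simpa using h
  rw [h1, card_image_of_injective]
  intro x y h
  exact congrArg Prod.fst h

theorem npt_add (z : G → Bool) (a : G) : npt (add z a) = ones z + 1 := by
  unfold add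
  rw [cf_npt_update _ (cf_emb_new z a), npt_emb]

private theorem cf_mem_St (c : Cf G M s) (o : Occ G) (x : M) :
    x ∈ c.St o ↔ (∃ p, o p = true ∧ c.P p = x) ∨
      (∃ t : Fin (Fintype.card G + 1), (t : ℕ) < Fintype.card G + 1 - npt o ∧ c.Q t = x) ∨
        x ∈ c.Z := by
  unfold Cf.St
  simp only [mem_union, mem_image, mem_filter, mem_univ, true_and, or_assoc]

theorem card_St (c : Cf G M s) (o : Occ G) (ho : npt o ≤ Fintype.card G + 1) :
    (c.St o).card = s := by
  have hA : ((univ.filter fun p : G × Bool => o p = true).image c.P).card = npt o := by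
    rw [card_image_of_injective _ c.P_inj]
    rfl
  have hB : ((univ.filter fun t : Fin (Fintype.card G + 1) =>
      (t : ℕ) < Fintype.card G + 1 - npt o).image c.Q).card =
      Fintype.card G + 1 - npt o := by
    rw [card_image_of_injective _ c.Q_inj, Fin.card_filter_val_lt]
    exact min_eq_right (Nat.sub_le _ _)
  unfold Cf.St
  rw [card_union_of_disjoint, card_union_of_disjoint, hA, hB]
  · have h1 := c.card_Z
    omega
  · rw [disjoint_left]
    intro x hx hx'
    obtain ⟨p, -, rfl⟩ := mem_image.1 hx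
    obtain ⟨t, -, h⟩ := mem_image.1 hx'
    exact c.PQ _ _ h.symm
  · rw [disjoint_left]
    intro x hx hx'
    rcases mem_union.1 hx with h | h
    · obtain ⟨p, -, rfl⟩ := mem_image.1 h
      exact c.PZ _ hx'
    · obtain ⟨t, -, rfl⟩ := mem_image.1 h
      exact c.QZ _ hx'

theorem mem_St_emb (c : Cf G M s) (z : G → Bool) (x : M) :
    x ∈ c.St (emb z) ↔ (∃ a, z a = true ∧ c.P (a, false) = x) ∨
      (∃ t : Fin (Fintype.card G + 1), (t : ℕ) < Fintype.card G + 1 - ones z ∧ c.Q t = x) ∨
        x ∈ c.Z := by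
  rw [cf_mem_St, npt_emb]
  refine or_congr ?_ Iff.rfl
  constructor
  · rintro ⟨⟨a, b⟩, h, h'⟩
    unfold emb at h
    cases b
    · exact ⟨a, by simpa using h, h'⟩
    · simp at h
  · rintro ⟨a, h, h'⟩
    exact ⟨(a, false), by simpa [emb] using h, h'⟩

private theorem cf_St_update (c : Cf G M s) (o : Occ G) {p : G × Bool} (hp : o p = false)
    {t : Fin (Fintype.card G + 1)} (ht : (t : ℕ) + npt o = Fintype.card G) :
    c.St (Function.update o p true) = insert (c.P p) ((c.St o).erase (c.Q t)) := by
  ext x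
  rw [mem_insert, mem_erase, cf_mem_St, cf_mem_St, cf_npt_update o hp]
  constructor
  · rintro (⟨q, hq, rfl⟩ | ⟨t', ht', rfl⟩ | h)
    · by_cases hqp : q = p
      · exact Or.inl (by rw [hqp])
      · rw [Function.update_of_ne hqp] at hq
        exact Or.inr ⟨c.PQ _ _, Or.inl ⟨q, hq, rfl⟩⟩
    · refine Or.inr ⟨?_, Or.inr (Or.inl ⟨t', by omega, rfl⟩)⟩
      intro h
      have h1 := congrArg Fin.val (c.Q_inj h)
      omega
    · refine Or.inr ⟨?_, Or.inr (Or.inr h)⟩
      rintro rfl
      exact c.QZ _ h
  · rintro (rfl | ⟨h0, (⟨q, hq, rfl⟩ | ⟨t', ht', rfl⟩ | h)⟩)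
    · exact Or.inl ⟨p, Function.update_self _ _ _, rfl⟩
    · refine Or.inl ⟨q, ?_, rfl⟩
      by_cases hqp : q = p
      · subst hqp
        exact Function.update_self _ _ _
      · rw [Function.update_of_ne hqp]
        exact hq
    · refine Or.inr (Or.inl ⟨t', ?_, rfl⟩)
      have h1 : (t' : ℕ) ≠ t := fun h => h0 (by rw [Fin.ext h])
      omega
    · exact Or.inr (Or.inr h)

private theorem cf_P_notMem (c : Cf G M s) (o : Occ G) {p : G × Bool} (hp : o p = false)
    (q : M) : c.P p ∉ (c.St o).erase q := by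
  intro h
  rcases (cf_mem_St c o _).1 (mem_of_mem_erase h) with ⟨p', hp', h1⟩ | ⟨t', -, h1⟩ | h1
  · rw [c.P_inj h1, hp] at hp'
    exact Bool.false_ne_true hp'
  · exact c.PQ _ _ h1.symm
  · exact c.PZ _ h1

private theorem cf_exists_t (z : G → Bool) :
    ∃ t : Fin (Fintype.card G + 1), (t : ℕ) + npt (emb z) = Fintype.card G := by
  have h1 := cf_ones_le z
  rw [npt_emb]
  exact ⟨⟨Fintype.card G - ones z, by omega⟩, by dsimp only; omega⟩

theorem W1_add {ρ : M → M → ℝ} (hρ : IsMet ρ) (c : Cf G M s) {H : ℝ}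
    (hH : ∀ p t, ρ (c.P p) (c.Q t) ≤ H) (z : G → Bool) (a : G) :
    W1 ρ (unif s (c.St (add z a))) (unif s (c.St (emb z))) ≤ H / s := by
  obtain ⟨t, ht⟩ := cf_exists_t z
  have h1 : c.Q t ∈ c.St (emb z) := (cf_mem_St c _ _).2 (Or.inr (Or.inl ⟨t, by omega, rfl⟩))
  have h2 := W1_insert (s := s) hρ (cf_P_notMem c (emb z) (cf_emb_new z a) (c.Q t))
    (notMem_erase (c.Q t) (c.St (emb z)))
  rw [insert_erase h1] at h2
  unfold add
  rw [cf_St_update c (emb z) (cf_emb_new z a) ht]
  exact h2.trans (div_le_div_of_nonneg_right (hH _ _) (Nat.cast_nonneg _))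

theorem W1_adj {ρ : M → M → ℝ} (hρ : IsMet ρ) (c : Cf G M s) {B : ℝ} {a a' : G}
    (haa : a ≠ a') (hB : ∀ b b', ρ (c.P (a', b')) (c.P (a, b)) ≤ B) (z : G → Bool) :
    W1 ρ (unif s (c.St (add z a'))) (unif s (c.St (add z a))) ≤ B / s := by
  obtain ⟨t, ht⟩ := cf_exists_t z
  unfold add
  rw [cf_St_update c (emb z) (cf_emb_new z a) ht, cf_St_update c (emb z) (cf_emb_new z a') ht]
  refine (W1_insert (s := s) hρ (cf_P_notMem c (emb z) (cf_emb_new z a') (c.Q t))
    (cf_P_notMem c (emb z) (cf_emb_new z a) (c.Q t))).trans ?_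
  exact div_le_div_of_nonneg_right (hB _ _) (Nat.cast_nonneg _)

end Pool.Agent.Emd
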