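import Pool.Agent.GrO.Scale

/-!
MODULE scl (S). The scale sum for arbitrary sets.

Proof. `min x √x ≤ min (2x) √(2x)` for `x ≥ 0`. If `2 |A| ≤ n^k` (`n = 2^J`): `GrO.scale_sum`. Otherwise
`v = |A| > n^k / 2`; if `J < 11` the sum is empty (`Ico 5 (J - 5) = ∅`); else `GrO.sum2` with
`b = J - 5` (`2^(b+3) = n/4 ≤ v^(1/k)` since `(n/4)^k ≤ n^k/2 ≤ v`) gives at most
`5 v^(1-1/k) / 4^(k-2) ≤ 5 n^(k-1) / 4^(k-2)` (`v ≤ n^k`), and
`23 / (k^2 n) · v ≥ 23 n^(k-1) / (2 k^2) ≥ 5 n^(k-1) / 4^(k-2)` because `10 k^2 ≤ 23 · 4^(k-2)` for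
`k ≥ 3` (`90 ≤ 92`; induction).
-/

set_option autoImplicit false

namespace Pool.Agent.Emd

open Finset Pool.Agent.MP_12e089_an Pool.Agent.GrO

private lemma scl_grad_nonneg {n k : ℕ} (φ : Grid n k → ℝ) : 0 ≤ grad φ := by
  unfold grad
  refine Finset.sum_nonneg fun x _ => Finset.sum_nonneg fun j _ => ?_
  split_ifs
  · exact norm_nonneg _
  · exact le_refl _

private lemma scl_num {m : ℕ} : 10 * (m + 3) ^ 2 ≤ 23 * 4 ^ (m + 1) := by
  induction m with
  | zero => norm_num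
  | succ m ih =>
    have h1 : 4 ^ (m + 1 + 1) = 4 * 4 ^ (m + 1) := by ring
    have h2 : (m + 1 + 3) ^ 2 = (m + 3) ^ 2 + 2 * (m + 3) + 1 := by ring
    have h3 : (m + 3) ^ 2 = m ^ 2 + 6 * m + 9 := by ring
    rw [h1, h2]
    nlinarith [Nat.zero_le (m ^ 2)]

private lemma scl_min (x : ℝ) (hx : 0 ≤ x) :
    min x (Real.sqrt x) ≤ min (2 * x) (Real.sqrt (2 * x)) := by
  apply min_le_min
  · linarith
  · apply Real.sqrt_le_sqrt
    linarith

private lemma scl_card {n k : ℕ} (A : Finset (Grid n k)) : A.card ≤ n ^ k := by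
  refine (Finset.card_le_univ A).trans ?_
  simp [Grid]

theorem scl {J k : ℕ} (hk : 3 ≤ k) (A : Finset (Grid (2 ^ J) k)) :
    ∑ i ∈ Finset.Ico 5 (J - 5), (2 : ℝ) ^ (i * (k - 1)) *
      min ((A.card : ℝ) / 2 ^ (i * k)) (Real.sqrt ((A.card : ℝ) / 2 ^ (i * k))) ≤
    12 / (k : ℝ) * grad (ind A) + 23 / ((k : ℝ) ^ 2 * 2 ^ J) * A.card := by
  have hk0 : (0 : ℝ) < k := by
    have : 0 < k := by omega
    exact_mod_cast this
  have hgrad := scl_grad_nonneg (ind A)
  have hv0 : (0 : ℝ) ≤ (A.card : ℝ) := Nat.cast_nonneg _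
  have hstep : ∑ i ∈ Finset.Ico 5 (J - 5), (2 : ℝ) ^ (i * (k - 1)) *
      min ((A.card : ℝ) / 2 ^ (i * k)) (Real.sqrt ((A.card : ℝ) / 2 ^ (i * k))) ≤
      ∑ i ∈ Finset.Ico 5 (J - 5), (2 : ℝ) ^ (i * (k - 1)) *
      min (2 * ((A.card : ℝ) / 2 ^ (i * k))) (Real.sqrt (2 * ((A.card : ℝ) / 2 ^ (i * k)))) := by
    apply Finset.sum_le_sum
    intro i _
    apply mul_le_mul_of_nonneg_left (scl_min _ (by positivity)) (by positivity)
  refine hstep.trans ?_
  by_cases hA : 2 * A.card ≤ (2 ^ J) ^ k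
  · refine (scale_sum hk A hA).trans ?_
    have : 0 ≤ 23 / ((k : ℝ) ^ 2 * 2 ^ J) * (A.card : ℝ) := by positivity
    linarith
  · rcases Nat.lt_or_ge J 11 with hJ | hJ
    · have : Finset.Ico 5 (J - 5) = ∅ := Finset.Ico_eq_empty (by omega)
      rw [this, Finset.sum_empty]
      positivity
    · have hv : (0 : ℝ) < (A.card : ℝ) := by
        rcases Nat.eq_zero_or_pos A.card with h | h
        · exfalso
          apply hA
          rw [h]
          simp
        · exact_mod_cast h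
      set n : ℝ := (2 : ℝ) ^ J with hn
      have hn0 : 0 < n := by positivity
      set v : ℝ := (A.card : ℝ) with hvdef
      have hvn : v ≤ n ^ k := by
        rw [hvdef, hn]
        exact_mod_cast scl_card A
      have hvn2 : n ^ k / 2 ≤ v := by
        have h1 : (2 ^ J) ^ k ≤ 2 * A.card := by omega
        have h2 : (((2 ^ J) ^ k : ℕ) : ℝ) ≤ ((2 * A.card : ℕ) : ℝ) := by exact_mod_cast h1
        push_cast at h2
        rw [hvdef, hn]
        linarith
      have hkk : k ≠ 0 := by omega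
      have hθk : (v ^ (1 / (k : ℝ))) ^ k = v := by
        rw [← Real.rpow_natCast, ← Real.rpow_mul hv.le, one_div, inv_mul_cancel₀ hk0.ne',
          Real.rpow_one]
      have hθ0 : 0 ≤ v ^ (1 / (k : ℝ)) := Real.rpow_nonneg hv.le _
      have hθn : v ^ (1 / (k : ℝ)) ≤ n := by
        apply le_of_pow_le_pow_left₀ hkk hn0.le
        rw [hθk]
        exact hvn
      have hb : (2 : ℝ) ^ (J - 5 + 3) ≤ v ^ (1 / (k : ℝ)) := by
        apply le_of_pow_le_pow_left₀ hkk hθ0
        rw [hθk]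
        have hJ2 : n = 2 ^ (J - 5 + 3) * 4 := by
          have hJJ : J = (J - 5 + 3) + 2 := by omega
          calc n = (2 : ℝ) ^ ((J - 5 + 3) + 2) := by rw [hn, ← hJJ]
            _ = 2 ^ (J - 5 + 3) * 2 ^ 2 := pow_add _ _ _
            _ = 2 ^ (J - 5 + 3) * 4 := by norm_num
        have h4 : (2 : ℝ) ≤ 4 ^ k := by
          calc (2 : ℝ) ≤ 4 ^ 1 := by norm_num
            _ ≤ 4 ^ k := by
              apply pow_le_pow_right₀ (by norm_num)
              omega
        have h5 : n ^ k = (2 ^ (J - 5 + 3)) ^ k * 4 ^ k := by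
          rw [← mul_pow, ← hJ2]
        have h6 : (0 : ℝ) ≤ (2 ^ (J - 5 + 3)) ^ k := by positivity
        have h7 : (2 ^ (J - 5 + 3) : ℝ) ^ k * 2 ≤ n ^ k := by
          rw [h5]
          exact mul_le_mul_of_nonneg_left h4 h6
        linarith
      have hs2 := sum2 hk hv0 5 (J - 5) hb
      refine hs2.trans ?_
      have hw : v ^ (1 - 1 / (k : ℝ)) ≤ n ^ (k - 1) := by
        have h1 : v ^ (1 - 1 / (k : ℝ)) = (v ^ (1 / (k : ℝ))) ^ (k - 1) := by
          rw [← Real.rpow_natCast, ← Real.rpow_mul hv.le]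
          congr 1
          rw [Nat.cast_sub (by omega), Nat.cast_one]
          field_simp
        rw [h1]
        exact pow_le_pow_left₀ hθ0 hθn _
      have hnk : n ^ k = n ^ (k - 1) * n := by
        rw [← pow_succ]
        congr 1
        omega
      have hnk0 : 0 < n ^ (k - 1) := by positivity
      have hfin : 5 * v ^ (1 - 1 / (k : ℝ)) / 4 ^ (k - 2) ≤ 23 / ((k : ℝ) ^ 2 * n) * v := by
        have h1 : 5 * v ^ (1 - 1 / (k : ℝ)) / 4 ^ (k - 2) ≤ 5 * n ^ (k - 1) / 4 ^ (k - 2) := by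
          apply div_le_div_of_nonneg_right _ (by positivity)
          linarith
        have h2 : 23 / ((k : ℝ) ^ 2 * n) * (n ^ (k - 1) * n / 2) ≤
            23 / ((k : ℝ) ^ 2 * n) * v := by
          apply mul_le_mul_of_nonneg_left _ (by positivity)
          rw [← hnk]
          exact hvn2
        refine h1.trans (le_trans ?_ h2)
        have h3 : 23 / ((k : ℝ) ^ 2 * n) * (n ^ (k - 1) * n / 2) =
            n ^ (k - 1) * (23 / (2 * (k : ℝ) ^ 2)) := by
          field_simp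
        rw [h3]
        have h4 : 5 * n ^ (k - 1) / 4 ^ (k - 2) = n ^ (k - 1) * (5 / 4 ^ (k - 2)) := by ring
        rw [h4]
        apply mul_le_mul_of_nonneg_left _ hnk0.le
        obtain ⟨m, rfl⟩ : ∃ m, k = m + 3 := ⟨k - 3, by omega⟩
        have h5 : (10 : ℝ) * ((m : ℝ) + 3) ^ 2 ≤ 23 * 4 ^ (m + 1) := by
          exact_mod_cast scl_num (m := m)
        have h6 : m + 3 - 2 = m + 1 := by omega
        rw [h6, div_le_div_iff₀ (by positivity) (by positivity)]
        push_cast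
        linarith
      linarith [mul_nonneg (div_nonneg (by norm_num : (0 : ℝ) ≤ 12) hk0.le) hgrad]

end Pool.Agent.Emd
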