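import Pool.Agent.Emd.Sub
import Pool.Agent.Emd.Avg
import Pool.Agent.Emd.Scl
import Pool.Agent.GrO.Coa

/-!
MODULE mset (M) and ml1 (M). The multi-scale inequality for configurations of particles.

Every site `a : G` has two slots `(a, false)` and `(a, true)`. `emb z` is the configuration with the
first slots occupied according to `z` and empty second slots, `add z a` has one more particle at
the site `a` (in the first slot if it is empty, else in the second one).

`main_set` (module mset). Fix `z`, put `A_z = {a | add z a ∈ A ↔ emb z ∉ A}`, so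
`ind A_z a = |ind A (add z a) - ind A (emb z)|` and `grad (ind A_z) = grad (fun a => ind A (add z a))`
(`ind A_z` is `ind A (add z ·)` or `1 -` it). For `i` (shifted by `5`), `K = 2^(k(J-i))`, `m = 2^(ik)`:
`sub_ineq` for `g = ind A ∘ emb`; `add z a = emb (update z a true)` if `z a = false`, so
`npiv e c g z ≤ #{q | e.symm (q, c q) ∈ A_z}`; `avg_sqrt` gives
`tb (e i) g ≤ 2 ∑_z min (|A_z|/m) √(|A_z|/m)`; sum over `i` with the weights `2^(i(k-1))` and use `scl`.

`main_L1` (module ml1). `coa_L1` with `X = Occ G`, `S` = all `(i, c, u, z)` (`i : Fin (J - 10)`, shifted by `5`;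
a sigma type, `φ (emb (rep ..)) - φ (emb z)`, the coefficient function is the difference of two
indicator functions, sum `0`), `T` = all edge terms `(z, a, j)` with weight `24/k` (weight `0` if
`(a j) + 1 ≥ 2^J`) and all `(z, a)` with weight `46 / (k^2 2^J)`; the hypothesis is `main_set`.
-/

set_option autoImplicit false

namespace Pool.Agent.Emd

open Finset Pool.Agent.MP_12e089_an Pool.Agent.GrO

/-- Configurations of particles: two slots per site. -/
abbrev Occ (G : Type) : Type := G × Bool → Bool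

/-- The first slots are occupied according to `z`, the second ones are empty. -/
def emb {G : Type} (z : G → Bool) : Occ G := fun p => if p.2 = true then false else z p.1

/-- One more particle at the site `a`. -/
def add {G : Type} [DecidableEq G] (z : G → Bool) (a : G) : Occ G :=
  Function.update (emb z) (a, z a) true

/-- The mean (over `c` and `u`) of the sum over `z` of the changes of `F` under resampling. -/
noncomputable def tb {G : Type} [Fintype G] [DecidableEq G] {K m : ℕ} {E : Type}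
    [SeminormedAddCommGroup E] (e : G ≃ Fin K × Fin m) (F : (G → Bool) → E) : ℝ :=
  (∑ c : Fin K → Fin m, ∑ u : Fin K → Bool, ∑ z : G → Bool, ‖F (rep e c u z) - F z‖) /
    ((m : ℝ) ^ K * 2 ^ K)

private lemma mset_add_false {G : Type} [DecidableEq G] (z : G → Bool) (a : G)
    (h : z a = false) : add z a = emb (Function.update z a true) := by
  funext p
  obtain ⟨x, b⟩ := p
  unfold add emb
  rw [h]
  by_cases hx : x = a
  · subst hx
    cases b
    · simp
    · have : ((x, true) : G × Bool) ≠ (x, false) := by simp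
      rw [Function.update_of_ne this]
      simp
  · have : ((x, b) : G × Bool) ≠ (a, false) := by
      intro h
      exact hx (congrArg Prod.fst h)
    rw [Function.update_of_ne this]
    simp [Function.update_of_ne hx]

/-- The pivotal sites. -/
private noncomputable def msetA {G : Type} [Fintype G] [DecidableEq G] (A : Finset (Occ G))
    (z : G → Bool) : Finset G :=
  univ.filter fun a => ind A (add z a) ≠ ind A (emb z)

private lemma mset_ind01 {X : Type} [DecidableEq X] (A : Finset X) (x : X) :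
    ind A x = 0 ∨ ind A x = 1 := by
  unfold ind
  split_ifs
  · exact Or.inr rfl
  · exact Or.inl rfl

private lemma mset_indA {G : Type} [Fintype G] [DecidableEq G] (A : Finset (Occ G))
    (z : G → Bool) (a : G) :
    ind (msetA A z) a = |ind A (add z a) - ind A (emb z)| := by
  have h : a ∈ msetA A z ↔ ind A (add z a) ≠ ind A (emb z) := by
    simp [msetA]
  by_cases hh : ind A (add z a) = ind A (emb z)
  · have h1 : a ∉ msetA A z := fun hx => (h.1 hx) hh
    unfold ind at hh ⊢
    rw [if_neg h1, hh]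
    simp
  · have h1 : a ∈ msetA A z := h.2 hh
    have h2 : ind (msetA A z) a = 1 := by
      unfold ind
      rw [if_pos h1]
    rw [h2]
    rcases mset_ind01 A (add z a) with h3 | h3 <;> rcases mset_ind01 A (emb z) with h4 | h4
    · exact absurd (h3.trans h4.symm) hh
    · rw [h3, h4]; norm_num
    · rw [h3, h4]; norm_num
    · exact absurd (h3.trans h4.symm) hh

private lemma mset_card {G : Type} [Fintype G] [DecidableEq G] (A : Finset (Occ G))
    (z : G → Bool) :
    ((msetA A z).card : ℝ) = ∑ a, |ind A (add z a) - ind A (emb z)| := by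
  have h : ∀ a, |ind A (add z a) - ind A (emb z)| = if a ∈ msetA A z then (1 : ℝ) else 0 := by
    intro a
    rw [← mset_indA]
    rfl
  rw [Finset.sum_congr rfl fun a _ => h a, Finset.sum_ite_mem, Finset.univ_inter]
  simp

private lemma mset_grad {n k : ℕ} (A : Finset (Occ (Grid n k))) (z : Grid n k → Bool) :
    grad (ind (msetA A z)) = grad (fun a => ind A (add z a)) := by
  unfold grad
  refine Finset.sum_congr rfl fun x _ => Finset.sum_congr rfl fun j _ => ?_
  by_cases h : (x j : ℕ) + 1 < n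
  · rw [dif_pos h, dif_pos h, mset_indA, mset_indA, Real.norm_eq_abs, Real.norm_eq_abs]
    beta_reduce
    rcases mset_ind01 A (add z (upd x j h)) with h1 | h1 <;>
    rcases mset_ind01 A (add z x) with h2 | h2 <;>
    rcases mset_ind01 A (emb z) with h3 | h3 <;>
    rw [h1, h2, h3] <;> norm_num
  · rw [dif_neg h, dif_neg h]

private lemma mset_npiv {G : Type} [Fintype G] [DecidableEq G] {K m : ℕ}
    (e : G ≃ Fin K × Fin m) (c : Fin K → Fin m) (A : Finset (Occ G)) (z : G → Bool) :
    npiv e c (fun z => ind A (emb z)) z ≤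
      (univ.filter fun q : Fin K => e.symm (q, c q) ∈ msetA A z).card := by
  classical
  unfold npiv
  apply Finset.card_le_card
  intro q hq
  rw [Finset.mem_filter] at hq ⊢
  obtain ⟨_, hq1, hq2⟩ := hq
  refine ⟨Finset.mem_univ _, ?_⟩
  unfold msetA
  rw [Finset.mem_filter]
  refine ⟨Finset.mem_univ _, ?_⟩
  rw [mset_add_false z _ hq1]
  exact hq2

private lemma mset_tb {G : Type} [Fintype G] [DecidableEq G] {K m : ℕ} (hm : 1 ≤ m)
    (e : G ≃ Fin K × Fin m) (A : Finset (Occ G)) :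
    tb e (fun z => ind A (emb z)) ≤
      ∑ z, 2 * min (((msetA A z).card : ℝ) / m) (Real.sqrt (((msetA A z).card : ℝ) / m)) := by
  have hm0 : (0 : ℝ) < m := by
    have : 0 < m := hm
    exact_mod_cast this
  unfold tb
  rw [div_le_iff₀ (by positivity)]
  have h1 : ∀ c : Fin K → Fin m, ∑ u : Fin K → Bool, ∑ z : G → Bool,
      ‖(fun z => ind A (emb z)) (rep e c u z) - (fun z => ind A (emb z)) z‖ ≤
      2 * 2 ^ K * ∑ z : G → Bool, Real.sqrt
        ((univ.filter fun q : Fin K => e.symm (q, c q) ∈ msetA A z).card : ℝ) := by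
    intro c
    have h := sub_ineq e c (fun z => ind A (emb z)) (fun z => mset_ind01 A (emb z))
    refine (le_of_eq ?_).trans (h.trans ?_)
    · simp only [Real.norm_eq_abs]
    · apply mul_le_mul_of_nonneg_left _ (by positivity)
      apply Finset.sum_le_sum
      intro z _
      apply Real.sqrt_le_sqrt
      exact_mod_cast mset_npiv e c A z
  refine (Finset.sum_le_sum fun c _ => h1 c).trans ?_
  rw [← Finset.mul_sum, Finset.sum_comm, Finset.mul_sum, Finset.sum_mul]
  apply Finset.sum_le_sum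
  intro z _
  have h2 := avg_sqrt hm e (msetA A z)
  calc 2 * 2 ^ K * ∑ c : Fin K → Fin m, Real.sqrt
        ((univ.filter fun q : Fin K => e.symm (q, c q) ∈ msetA A z).card : ℝ)
      ≤ 2 * 2 ^ K * ((m : ℝ) ^ K *
        min (((msetA A z).card : ℝ) / m) (Real.sqrt (((msetA A z).card : ℝ) / m))) :=
        mul_le_mul_of_nonneg_left h2 (by positivity)
    _ = _ := by ring

theorem main_set {J k : ℕ} (hk : 3 ≤ k)
    (e : ∀ i : Fin (J - 10), Grid (2 ^ J) k ≃
      Fin (2 ^ (k * (J - ((i : ℕ) + 5)))) × Fin (2 ^ (((i : ℕ) + 5) * k)))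
    (A : Finset (Occ (Grid (2 ^ J) k))) :
    ∑ i : Fin (J - 10), (2 : ℝ) ^ (((i : ℕ) + 5) * (k - 1)) *
      tb (e i) (fun z => ind A (emb z)) ≤
    ∑ z, (24 / (k : ℝ) * grad (fun a => ind A (add z a)) +
      46 / ((k : ℝ) ^ 2 * 2 ^ J) * ∑ a, |ind A (add z a) - ind A (emb z)|) := by
  have h1 : ∀ i : Fin (J - 10), (2 : ℝ) ^ (((i : ℕ) + 5) * (k - 1)) *
      tb (e i) (fun z => ind A (emb z)) ≤
      ∑ z, 2 * ((2 : ℝ) ^ ((5 + (i : ℕ)) * (k - 1)) *
        min (((msetA A z).card : ℝ) / 2 ^ ((5 + (i : ℕ)) * k))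
          (Real.sqrt (((msetA A z).card : ℝ) / 2 ^ ((5 + (i : ℕ)) * k)))) := by
    intro i
    have h := mset_tb (Nat.one_le_two_pow) (e i) A
    have h2 := mul_le_mul_of_nonneg_left h
      (by positivity : (0 : ℝ) ≤ (2 : ℝ) ^ (((i : ℕ) + 5) * (k - 1)))
    refine h2.trans (le_of_eq ?_)
    rw [Finset.mul_sum]
    refine Finset.sum_congr rfl fun z _ => ?_
    rw [Nat.cast_pow, Nat.cast_ofNat, add_comm (i : ℕ) 5]
    ring
  refine (Finset.sum_le_sum fun i _ => h1 i).trans ?_
  rw [Finset.sum_comm]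
  apply Finset.sum_le_sum
  intro z _
  rw [← Finset.mul_sum]
  have h3 := scl hk (msetA A z)
  have h4 : ∑ i ∈ Finset.Ico 5 (J - 5), (2 : ℝ) ^ (i * (k - 1)) *
      min (((msetA A z).card : ℝ) / 2 ^ (i * k)) (Real.sqrt (((msetA A z).card : ℝ) / 2 ^ (i * k))) =
      ∑ i : Fin (J - 10), (2 : ℝ) ^ ((5 + (i : ℕ)) * (k - 1)) *
        min (((msetA A z).card : ℝ) / 2 ^ ((5 + (i : ℕ)) * k))
          (Real.sqrt (((msetA A z).card : ℝ) / 2 ^ ((5 + (i : ℕ)) * k))) := by
    rw [Finset.sum_Ico_eq_sum_range]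
    have h5 : J - 5 - 5 = J - 10 := by omega
    rw [h5, Finset.sum_range]
  rw [h4, mset_grad] at h3
  have h6 : 24 / (k : ℝ) * grad (fun a => ind A (add z a)) +
      46 / ((k : ℝ) ^ 2 * 2 ^ J) * ∑ a, |ind A (add z a) - ind A (emb z)| =
      2 * (12 / (k : ℝ) * grad (fun a => ind A (add z a)) +
      23 / ((k : ℝ) ^ 2 * 2 ^ J) * ((msetA A z).card : ℝ)) := by
    rw [mset_card]
    ring
  rw [h6]
  exact mul_le_mul_of_nonneg_left h3 (by norm_num)


/-- The index type of the left hand side of `main_L1`. -/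
private abbrev ml1_S (J k : ℕ) : Type :=
  (i : Fin (J - 10)) × ((Fin (2 ^ (k * (J - ((i : ℕ) + 5)))) → Fin (2 ^ (((i : ℕ) + 5) * k))) ×
    (Fin (2 ^ (k * (J - ((i : ℕ) + 5)))) → Bool) × (Grid (2 ^ J) k → Bool))

/-- The index type of the right hand side of `main_L1`. -/
private abbrev ml1_T (J k : ℕ) : Type :=
  ((Grid (2 ^ J) k → Bool) × Grid (2 ^ J) k × Fin k) ⊕ ((Grid (2 ^ J) k → Bool) × Grid (2 ^ J) k)

private noncomputable def ml1_w {J k : ℕ} (s : ml1_S J k) : ℝ :=
  (2 : ℝ) ^ (((s.1 : ℕ) + 5) * (k - 1)) /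
    (((2 ^ (((s.1 : ℕ) + 5) * k) : ℕ) : ℝ) ^ (2 ^ (k * (J - ((s.1 : ℕ) + 5)))) *
      2 ^ (2 ^ (k * (J - ((s.1 : ℕ) + 5)))))

private def ml1_p {J k : ℕ}
    (e : ∀ i : Fin (J - 10), Grid (2 ^ J) k ≃
      Fin (2 ^ (k * (J - ((i : ℕ) + 5)))) × Fin (2 ^ (((i : ℕ) + 5) * k)))
    (s : ml1_S J k) : Occ (Grid (2 ^ J) k) :=
  emb (rep (e s.1) s.2.1 s.2.2.1 s.2.2.2)

private def ml1_q {J k : ℕ} (s : ml1_S J k) : Occ (Grid (2 ^ J) k) :=
  emb s.2.2.2

private noncomputable def ml1_u {J k : ℕ} : ml1_T J k → ℝ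
  | Sum.inl t => if (t.2.1 t.2.2 : ℕ) + 1 < 2 ^ J then 24 / (k : ℝ) else 0
  | Sum.inr _ => 46 / ((k : ℝ) ^ 2 * 2 ^ J)

private def ml1_p' {J k : ℕ} : ml1_T J k → Occ (Grid (2 ^ J) k)
  | Sum.inl t => if h : (t.2.1 t.2.2 : ℕ) + 1 < 2 ^ J then add t.1 (upd t.2.1 t.2.2 h)
      else add t.1 t.2.1
  | Sum.inr t => add t.1 t.2

private def ml1_q' {J k : ℕ} : ml1_T J k → Occ (Grid (2 ^ J) k)
  | Sum.inl t => add t.1 t.2.1
  | Sum.inr t => emb t.1

private theorem ml1_left {J k : ℕ} {E : Type} [SeminormedAddCommGroup E]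
    (e : ∀ i : Fin (J - 10), Grid (2 ^ J) k ≃
      Fin (2 ^ (k * (J - ((i : ℕ) + 5)))) × Fin (2 ^ (((i : ℕ) + 5) * k)))
    (φ : Occ (Grid (2 ^ J) k) → E) :
    ∑ i : Fin (J - 10), (2 : ℝ) ^ (((i : ℕ) + 5) * (k - 1)) *
      tb (e i) (fun z => φ (emb z)) =
    ∑ s : ml1_S J k, ml1_w s * ‖φ (ml1_p e s) - φ (ml1_q s)‖ := by
  rw [Fintype.sum_sigma]
  refine Finset.sum_congr rfl fun i _ => ?_
  unfold tb
  rw [Fintype.sum_prod_type, mul_div_assoc', Finset.mul_sum, Finset.sum_div]
  refine Finset.sum_congr rfl fun c _ => ?_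
  rw [Fintype.sum_prod_type, Finset.mul_sum, Finset.sum_div]
  refine Finset.sum_congr rfl fun u _ => ?_
  rw [Finset.mul_sum, Finset.sum_div]
  refine Finset.sum_congr rfl fun z _ => ?_
  simp only [ml1_w, ml1_p, ml1_q]
  ring

private theorem ml1_right {J k : ℕ} {E : Type} [SeminormedAddCommGroup E]
    (φ : Occ (Grid (2 ^ J) k) → E) :
    ∑ z, (24 / (k : ℝ) * grad (fun a => φ (add z a)) +
      46 / ((k : ℝ) ^ 2 * 2 ^ J) * ∑ a, ‖φ (add z a) - φ (emb z)‖) =
    ∑ t : ml1_T J k, ml1_u t * ‖φ (ml1_p' t) - φ (ml1_q' t)‖ := by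
  rw [Fintype.sum_sum_type, Finset.sum_add_distrib]
  congr 1
  · rw [Fintype.sum_prod_type]
    refine Finset.sum_congr rfl fun z _ => ?_
    unfold grad
    rw [Fintype.sum_prod_type, Finset.mul_sum]
    refine Finset.sum_congr rfl fun a _ => ?_
    rw [Finset.mul_sum]
    refine Finset.sum_congr rfl fun j _ => ?_
    simp only [ml1_u, ml1_p', ml1_q']
    by_cases h : (a j : ℕ) + 1 < 2 ^ J
    · rw [dif_pos h, if_pos h, dif_pos h]
    · rw [dif_neg h, if_neg h, mul_zero, zero_mul]
  · rw [Fintype.sum_prod_type]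
    refine Finset.sum_congr rfl fun z _ => ?_
    rw [Finset.mul_sum]
    refine Finset.sum_congr rfl fun a _ => ?_
    simp only [ml1_u, ml1_p', ml1_q']

theorem main_L1 {J k : ℕ} (hk : 3 ≤ k)
    (e : ∀ i : Fin (J - 10), Grid (2 ^ J) k ≃
      Fin (2 ^ (k * (J - ((i : ℕ) + 5)))) × Fin (2 ^ (((i : ℕ) + 5) * k)))
    (φ : Occ (Grid (2 ^ J) k) → L1) :
    ∑ i : Fin (J - 10), (2 : ℝ) ^ (((i : ℕ) + 5) * (k - 1)) *
      tb (e i) (fun z => φ (emb z)) ≤
    ∑ z, (24 / (k : ℝ) * grad (fun a => φ (add z a)) +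
      46 / ((k : ℝ) ^ 2 * 2 ^ J) * ∑ a, ‖φ (add z a) - φ (emb z)‖) := by
  classical
  rw [ml1_left e φ, ml1_right φ]
  have hw : ∀ s : ml1_S J k, 0 ≤ ml1_w s := by
    intro s
    unfold ml1_w
    positivity
  have hu : ∀ t : ml1_T J k, 0 ≤ ml1_u t := by
    intro t
    rcases t with t | t
    · simp only [ml1_u]
      split_ifs
      · positivity
      · exact le_rfl
    · simp only [ml1_u]
      positivity
  set a : ml1_S J k → Occ (Grid (2 ^ J) k) → ℝ := fun s x =>
    (if x = ml1_p e s then 1 else 0) - (if x = ml1_q s then 1 else 0) with hadef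
  have ha : ∀ s, ∑ x, a s x = 0 := by
    intro s
    simp only [hadef, Finset.sum_sub_distrib, Finset.sum_ite_eq', Finset.mem_univ, if_true,
      sub_self]
  have hR : ∀ (s : ml1_S J k) (f : Occ (Grid (2 ^ J) k) → ℝ),
      ∑ x, a s x * f x = f (ml1_p e s) - f (ml1_q s) := by
    intro s f
    simp only [hadef, sub_mul, ite_mul, one_mul, zero_mul, Finset.sum_sub_distrib,
      Finset.sum_ite_eq', Finset.mem_univ, if_true]
  have hV : ∀ s : ml1_S J k,
      ∑ x, a s x • φ x = φ (ml1_p e s) - φ (ml1_q s) := by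
    intro s
    simp only [hadef, sub_smul, ite_smul, one_smul, zero_smul, Finset.sum_sub_distrib,
      Finset.sum_ite_eq', Finset.mem_univ, if_true]
  have h : ∀ A : Finset (Occ (Grid (2 ^ J) k)),
      ∑ s, ml1_w s * |∑ x, a s x * ind A x| ≤
      ∑ t, ml1_u t * |ind A (ml1_p' t) - ind A (ml1_q' t)| := by
    intro A
    have h1 := main_set hk e A
    have h2 := ml1_left e (ind A)
    have h3 := ml1_right (J := J) (k := k) (ind A)
    simp only [Real.norm_eq_abs] at h2 h3
    rw [h2, h3] at h1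
    refine le_trans (le_of_eq ?_) h1
    refine Finset.sum_congr rfl fun s _ => ?_
    rw [hR]
  have hmain := coa_L1 (X := Occ (Grid (2 ^ J) k)) ml1_w hw a ha ml1_u hu ml1_p' ml1_q' h φ
  refine le_trans (le_of_eq ?_) hmain
  refine Finset.sum_congr rfl fun s _ => ?_
  rw [hV]

end Pool.Agent.Emd
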