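import Pool.Agent.Emd.Rnd

/-!
MODULE core (M). The lower bound for the distortion, abstract form.

Proof. `n = 2^J`, `N = n^k = |G|`, `G = Grid n k`. `D ≥ 1`, `f`, `r₀` from `EmbedsL1`. Put
`φ o = if h : npt o ≤ N + 1 then (s / r₀) • f ⟨unif s (c.St o), c.St o, card_St c o h, rfl⟩ else 0`. For `o, o'` with
`npt ≤ N + 1`: `s W1 (unif (St o)) (unif (St o')) ≤ ‖φ o - φ o'‖ ≤ D s W1 (unif (St o)) (unif (St o'))`
(as `hup`, `hlo` in `GrO.Low`). `main_L1` for `φ` with `e i` from `Fintype.equivOfCardEq`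
(`2^(k(J-i)) 2^(ik) = 2^(kJ)`, `i ≤ J`).
Left side: for `i ∈ [5, J-5)`, `K = 2^(k(J-i)) ≥ 2^15 ≥ 64`, `m = 2^(ik)`, `r = τ 2^i / 17`, `t = r`, by `W1_low` and
`rnd_low`: `tb (e i) (φ ∘ emb) ≥ (K/8) 2^N r`, so the left side is at least
`∑_i 2^(i(k-1)) (2^(k(J-i))/8) (τ 2^i/17) 2^N = (J - 10) τ N 2^N / 136` (for `W1_low` the order of the arguments
does not matter, the norm is symmetric).
Right side: by `W1_adj` (`hB`) every edge term of `grad` is at most `3 D`, there are at most `k N` edges; by `W1_add`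
(`hH`) `‖φ (add z a) - φ (emb z)‖ ≤ D (k 2^(J+1))`. So the right side is at most
`2^N (24/k · k N · 3 D + 46/(k^2 2^J) · N · D k 2^(J+1)) ≤ 2^N N D (72 + 92/3) ≤ 2^N N D 103`.
Hence `τ (J - 10) ≤ 136 · 103 D = 14008 D`.
-/

set_option autoImplicit false

namespace Pool.Agent.Emd

open Finset Pool.Agent.MP_12e089_an Pool.Agent.KhN Pool.Agent.GrO

private theorem core_upd_ne {n k : ℕ} (a : Grid n k) (j : Fin k) (h : (a j : ℕ) + 1 < n) :
    a ≠ upd a j h := by
  intro h1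
  have h2 := congrArg Fin.val (congrFun h1 j)
  unfold upd at h2
  rw [Function.update_self] at h2
  dsimp only at h2
  omega

private theorem core_grad_le {n k : ℕ} {E : Type} [SeminormedAddCommGroup E] {φ : Grid n k → E}
    {C : ℝ} (hC : 0 ≤ C)
    (h : ∀ (x : Grid n k) (j : Fin k) (h : (x j : ℕ) + 1 < n), ‖φ (upd x j h) - φ x‖ ≤ C) :
    grad φ ≤ (n : ℝ) ^ k * (k * C) := by
  unfold grad
  have h1 : ∀ x ∈ (univ : Finset (Grid n k)),
      (∑ j, if h : (x j : ℕ) + 1 < n then ‖φ (upd x j h) - φ x‖ else 0) ≤ k * C := by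
    intro x _
    have h2 : ∀ j ∈ (univ : Finset (Fin k)),
        (if h : (x j : ℕ) + 1 < n then ‖φ (upd x j h) - φ x‖ else 0) ≤ C := by
      intro j _
      split_ifs with hj
      · exact h x j hj
      · exact hC
    refine (Finset.sum_le_card_nsmul _ _ C h2).trans ?_
    simp
  refine (Finset.sum_le_card_nsmul _ _ (k * C) h1).trans ?_
  simp

private theorem core_ones_le {G : Type} [Fintype G] (z : G → Bool) : ones z ≤ Fintype.card G :=
  (card_filter_le _ _).trans (le_of_eq card_univ)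

private theorem core_card {J k i : ℕ} (hi : i + 5 ≤ J) :
    Fintype.card (Grid (2 ^ J) k) =
      Fintype.card (Fin (2 ^ (k * (J - (i + 5)))) × Fin (2 ^ ((i + 5) * k))) := by
  rw [Fintype.card_prod, Fintype.card_fin, Fintype.card_fin, Fintype.card_fun, Fintype.card_fin,
    Fintype.card_fin, ← pow_mul, ← pow_add]
  congr 1
  obtain ⟨c, rfl⟩ := Nat.exists_eq_add_of_le hi
  rw [Nat.add_sub_cancel_left]
  ring

private theorem core_exp {J k i : ℕ} (hk : 1 ≤ k) (hi : i + 5 ≤ J) :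
    J * k = (i + 5) * (k - 1) + (i + 5) + k * (J - (i + 5)) := by
  obtain ⟨l, rfl⟩ := Nat.exists_eq_add_of_le hi
  obtain ⟨c, rfl⟩ := Nat.exists_eq_add_of_le hk
  rw [Nat.add_sub_cancel_left, Nat.add_sub_cancel_left]
  ring

/-- The map with values in `L_1`, scaled. -/
private theorem core_phi {G : Type} [Fintype G] [DecidableEq G] {Δ d s : ℕ} (hs : 0 < s)
    {ρ : Grid Δ d → Grid Δ d → ℝ} (c : Cf G (Grid Δ d) s) {D : ℝ}
    (hE : EmbedsL1 (fun μ ν : Y Δ d s => W1 ρ μ.1 ν.1) D) :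
    ∃ φ : Occ G → L1, (∀ o o', npt o ≤ Fintype.card G + 1 → npt o' ≤ Fintype.card G + 1 →
      ∀ H : ℝ, W1 ρ (unif s (c.St o)) (unif s (c.St o')) ≤ H / s → ‖φ o - φ o'‖ ≤ D * H) ∧
      (∀ o o', npt o ≤ Fintype.card G + 1 → npt o' ≤ Fintype.card G + 1 →
      ∀ H : ℝ, H / s ≤ W1 ρ (unif s (c.St o)) (unif s (c.St o')) → H ≤ ‖φ o - φ o'‖) := by
  classical
  obtain ⟨hD, f, r, hr, hf⟩ := hE
  have hs' : (0 : ℝ) < s := by exact_mod_cast hs
  have hsr : 0 < (s / r : ℝ) := div_pos hs' hr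
  let m : ∀ o : Occ G, npt o ≤ Fintype.card G + 1 → Y Δ d s := fun o h =>
    ⟨unif s (c.St o), c.St o, card_St c o h, rfl⟩
  let φ : Occ G → L1 := fun o =>
    if h : npt o ≤ Fintype.card G + 1 then (s / r : ℝ) • f (m o h) else 0
  have hφ : ∀ o (h : npt o ≤ Fintype.card G + 1), φ o = (s / r : ℝ) • f (m o h) :=
    fun o h => dif_pos h
  have hn : ∀ o o' (h : npt o ≤ Fintype.card G + 1) (h' : npt o' ≤ Fintype.card G + 1),
      ‖φ o - φ o'‖ = s / r * ‖f (m o h) - f (m o' h')‖ := by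
    intro o o' h h'
    rw [hφ o h, hφ o' h', ← smul_sub, norm_smul, Real.norm_of_nonneg hsr.le]
  refine ⟨φ, fun o o' ho ho' H h => ?_, fun o o' ho ho' H h => ?_⟩
  · rw [hn o o' ho ho']
    have h4 : ‖f (m o ho) - f (m o' ho')‖ ≤ D * r * (H / s) :=
      ((hf (m o ho) (m o' ho')).2).trans (mul_le_mul_of_nonneg_left h (by positivity))
    refine (mul_le_mul_of_nonneg_left h4 hsr.le).trans (le_of_eq ?_)
    field_simp
  · rw [hn o o' ho ho']
    have h4 : r * (H / s) ≤ ‖f (m o ho) - f (m o' ho')‖ :=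
      (mul_le_mul_of_nonneg_left h hr.le).trans ((hf (m o ho) (m o' ho')).1)
    refine le_trans (le_of_eq ?_) (mul_le_mul_of_nonneg_left h4 hsr.le)
    field_simp

open scoped Classical in
/-- The lower bound for one scale. -/
private theorem core_tb {G : Type} [Fintype G] [DecidableEq G] {K m : ℕ} (hK : 64 ≤ K)
    (hm : 1 ≤ m) (e : G ≃ Fin K × Fin m) (δ : G → G → ℝ) {r t : ℝ} (ht : 0 ≤ t)
    (hB : ∀ x, 2 * ((univ.filter fun y => δ x y < r).card : ℝ) ≤ m) (F : (G → Bool) → L1)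
    (hF : ∀ z z' : G → Bool, t * ((iso δ r z z' : ℝ) - max 0 ((ones z' : ℝ) - ones z)) ≤
      ‖F z' - F z‖) :
    t * ((K : ℝ) / 8 * 2 ^ Fintype.card G) ≤ tb e F := by
  have h1 := rnd_low hK hm e δ r hB
  have hm0 : (0 : ℝ) < (m : ℝ) ^ K * 2 ^ K := by
    have : (0 : ℝ) < m := by exact_mod_cast hm
    positivity
  unfold tb
  rw [le_div_iff₀ hm0]
  calc t * ((K : ℝ) / 8 * 2 ^ Fintype.card G) * ((m : ℝ) ^ K * 2 ^ K)
      = t * ((K : ℝ) / 8 * ((m : ℝ) ^ K * 2 ^ K * 2 ^ Fintype.card G)) := by ring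
    _ ≤ t * ∑ c : Fin K → Fin m, ∑ u : Fin K → Bool, ∑ z : G → Bool,
        ((iso δ r z (rep e c u z) : ℝ) - max 0 ((ones (rep e c u z) : ℝ) - ones z)) :=
      mul_le_mul_of_nonneg_left h1 ht
    _ ≤ ∑ c : Fin K → Fin m, ∑ u : Fin K → Bool, ∑ z : G → Bool, ‖F (rep e c u z) - F z‖ := by
      rw [mul_sum]
      refine sum_le_sum fun c _ => ?_
      rw [mul_sum]
      refine sum_le_sum fun u _ => ?_
      rw [mul_sum]
      exact sum_le_sum fun z _ => hF z _

open scoped Classical in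
theorem core {Δ d s J k : ℕ} (hk : 3 ≤ k) (hJ : 11 ≤ J) (hs : 0 < s)
    {ρ : Grid Δ d → Grid Δ d → ℝ} (hρ : IsMet ρ) (c : Cf (Grid (2 ^ J) k) (Grid Δ d) s)
    (δ : Grid (2 ^ J) k → Grid (2 ^ J) k → ℝ) {τ D : ℝ} (hτ : 0 ≤ τ)
    (hH : ∀ p t, ρ (c.P p) (c.Q t) ≤ k * 2 ^ (J + 1))
    (hB : ∀ a j h b b', ρ (c.P (upd a j h, b')) (c.P (a, b)) ≤ 3)
    (hδ : ∀ a b, δ a b ≤ ρ (c.P (a, false)) (c.P (b, false)))
    (hball : ∀ i : ℕ, 5 ≤ i → ∀ x,
      2 * ((univ.filter fun y => δ x y < τ * 2 ^ i / 17).card : ℝ) ≤ (2 : ℝ) ^ (i * k))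
    (hE : EmbedsL1 (fun μ ν : Y Δ d s => W1 ρ μ.1 ν.1) D) :
    τ * ((J : ℝ) - 10) / 14008 ≤ D := by
  have hD : 1 ≤ D := hE.1
  have hD0 : (0 : ℝ) ≤ D := by linarith
  have hs' : (0 : ℝ) < s := by exact_mod_cast hs
  obtain ⟨N, hN⟩ : ∃ N : ℕ, N = (2 ^ J) ^ k := ⟨_, rfl⟩
  have hcard : Fintype.card (Grid (2 ^ J) k) = N := by
    rw [hN]
    simp [Grid]
  have hNR : (N : ℝ) = ((2 : ℝ) ^ J) ^ k := by rw [hN]; push_cast; rfl
  have hN0 : (0 : ℝ) < N := by rw [hNR]; positivity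
  have hk0 : (3 : ℝ) ≤ k := by exact_mod_cast hk
  obtain ⟨φ, hup, hlo⟩ := core_phi hs c hE
  have hemb : ∀ z : Grid (2 ^ J) k → Bool,
      npt (emb z) ≤ Fintype.card (Grid (2 ^ J) k) + 1 := by
    intro z
    rw [npt_emb]
    exact (core_ones_le z).trans (Nat.le_succ _)
  have hadd : ∀ (z : Grid (2 ^ J) k → Bool) (a : Grid (2 ^ J) k),
      npt (add z a) ≤ Fintype.card (Grid (2 ^ J) k) + 1 := by
    intro z a
    rw [npt_add]
    exact Nat.succ_le_succ (core_ones_le z)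
  have hcd : ∀ i : Fin (J - 10), Fintype.card (Grid (2 ^ J) k) =
      Fintype.card (Fin (2 ^ (k * (J - ((i : ℕ) + 5)))) × Fin (2 ^ (((i : ℕ) + 5) * k))) := by
    intro i
    have h1 := i.2
    exact core_card (by omega)
  have hmain := main_L1 hk (fun i => Fintype.equivOfCardEq (hcd i)) φ
  -- the left side
  have hleft : ∑ _i : Fin (J - 10), τ * N * 2 ^ N / 136 ≤
      ∑ i : Fin (J - 10), (2 : ℝ) ^ (((i : ℕ) + 5) * (k - 1)) *
        tb (Fintype.equivOfCardEq (hcd i)) (fun z => φ (emb z)) := by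
    refine sum_le_sum fun i _ => ?_
    have hi2 := i.2
    have hK : 64 ≤ 2 ^ (k * (J - ((i : ℕ) + 5))) := by
      have h1 : 6 ≤ k * (J - ((i : ℕ) + 5)) := by
        have h2 : 6 ≤ J - ((i : ℕ) + 5) := by omega
        nlinarith
      calc 64 = 2 ^ 6 := by norm_num
        _ ≤ _ := Nat.pow_le_pow_right (by norm_num) h1
    have ht : 0 ≤ τ * 2 ^ ((i : ℕ) + 5) / 17 := by positivity
    have h3 := core_tb hK Nat.one_le_two_pow (Fintype.equivOfCardEq (hcd i)) δ ht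
      (r := τ * 2 ^ ((i : ℕ) + 5) / 17) (fun x => by
        have h4 := hball ((i : ℕ) + 5) (by omega) x
        push_cast
        exact h4) (fun z => φ (emb z)) (fun z z' => by
        rw [norm_sub_rev]
        refine hlo _ _ (hemb z) (hemb z') _ ?_
        exact W1_low hρ hs c δ ht (fun a b h => h.trans (hδ a b)) z z')
    refine le_trans (le_of_eq ?_) (mul_le_mul_of_nonneg_left h3 (by positivity))
    rw [hcard]
    push_cast
    have h2 : (N : ℝ) = (2 : ℝ) ^ (((i : ℕ) + 5) * (k - 1)) * 2 ^ ((i : ℕ) + 5) *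
        (2 : ℝ) ^ (k * (J - ((i : ℕ) + 5))) := by
      rw [hNR, ← pow_mul, ← pow_add, ← pow_add]
      exact congrArg _ (core_exp (by omega) (by omega))
    rw [h2]
    ring
  -- the right side
  have hright : ∑ z, (24 / (k : ℝ) * grad (fun a => φ (add z a)) +
      46 / ((k : ℝ) ^ 2 * 2 ^ J) * ∑ a, ‖φ (add z a) - φ (emb z)‖) ≤
      2 ^ N * (103 * (N * D)) := by
    have h1 : ∀ z ∈ (univ : Finset (Grid (2 ^ J) k → Bool)),
        (24 / (k : ℝ) * grad (fun a => φ (add z a)) +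
          46 / ((k : ℝ) ^ 2 * 2 ^ J) * ∑ a, ‖φ (add z a) - φ (emb z)‖) ≤ 103 * (N * D) := by
      intro z _
      have h2 : grad (fun a => φ (add z a)) ≤ (N : ℝ) * (k * (D * 3)) := by
        have h3 := core_grad_le (φ := fun a => φ (add z a)) (C := D * 3) (by positivity)
          (fun x j h => hup _ _ (hadd z _) (hadd z _) _
            (W1_adj hρ c (core_upd_ne x j h) (fun b b' => hB x j h b b') z))
        refine h3.trans (le_of_eq ?_)
        rw [hNR]
        push_cast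
        ring
      have h4 : ∑ a, ‖φ (add z a) - φ (emb z)‖ ≤ N * (D * (k * 2 ^ (J + 1))) := by
        have h5 : ∀ a ∈ (univ : Finset (Grid (2 ^ J) k)),
            ‖φ (add z a) - φ (emb z)‖ ≤ D * (k * 2 ^ (J + 1)) := fun a _ =>
          hup _ _ (hadd z a) (hemb z) _ (W1_add hρ c hH z a)
        refine (Finset.sum_le_card_nsmul _ _ _ h5).trans (le_of_eq ?_)
        rw [nsmul_eq_mul, card_univ, hcard]
      have h6 : 24 / (k : ℝ) * grad (fun a => φ (add z a)) ≤ 72 * (N * D) := by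
        refine (mul_le_mul_of_nonneg_left h2 (by positivity)).trans (le_of_eq ?_)
        field_simp
        ring
      have h7 : 46 / ((k : ℝ) ^ 2 * 2 ^ J) * ∑ a, ‖φ (add z a) - φ (emb z)‖ ≤
          92 / k * (N * D) := by
        refine (mul_le_mul_of_nonneg_left h4 (by positivity)).trans (le_of_eq ?_)
        rw [pow_succ]
        field_simp
        ring
      have h8 : 92 / (k : ℝ) ≤ 31 := by
        rw [div_le_iff₀ (by linarith)]
        linarith
      have h9 : 92 / (k : ℝ) * (N * D) ≤ 31 * (N * D) :=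
        mul_le_mul_of_nonneg_right h8 (by positivity)
      linarith
    refine (Finset.sum_le_card_nsmul _ _ _ h1).trans (le_of_eq ?_)
    rw [nsmul_eq_mul, card_univ, Fintype.card_fun, hcard, Fintype.card_bool]
    push_cast
    ring
  have hfin := (hleft.trans hmain).trans hright
  rw [Finset.sum_const, card_univ, Fintype.card_fin, nsmul_eq_mul] at hfin
  have hJc : ((J - 10 : ℕ) : ℝ) = (J : ℝ) - 10 := by
    rw [Nat.cast_sub (by omega)]
    norm_num
  rw [hJc] at hfin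
  have h2N : (0 : ℝ) < 2 ^ N * N := by positivity
  have h5 : (τ * ((J : ℝ) - 10) / 14008) * (2 ^ N * N) ≤ D * (2 ^ N * N) := by
    have h6 : ((J : ℝ) - 10) * (τ * N * 2 ^ N / 136) =
        103 * ((τ * ((J : ℝ) - 10) / 14008) * (2 ^ N * N)) := by
      ring
    rw [h6] at hfin
    linarith
  exact le_of_mul_le_mul_right h5 h2N

end Pool.Agent.Emd
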