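import Pool.Agent.Emd.Cf

/-!
MODULE far (M). The lower bound for the transportation cost between two configurations.

`iso δ r z z'` = the sites `a` which are empty in `z` and occupied in `z'` such that every site `b` which
is occupied in `z` and empty in `z'` has `r ≤ δ a b`.

Proof of `W1_low`. `S = St (emb z)`, `S' = St (emb z')`, `D = P (T_-)`, `T_- = {(b, false) | z b, ¬ z' b}`,
`φ x = min t (inf_{q ∈ D} ρ x q)` (as `phi` in `GrO.St3`; copy it privately): `φ u - φ v ≤ ρ v u`,
`0 ≤ φ ≤ t`, `φ = 0` on `D`, `φ ≥ t` on `P (a, false)`, `a ∈ iso`. `KhN.W1_ge`: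
`1/s (∑_{S'} φ - ∑_S φ) ≤ W1 ρ (unif S) (unif S')`. `S' \ S ⊇ {P (a, false) | a ∈ iso}`;
`S \ S' ⊆ D ∪ {Q t | |G| + 1 - ones z' ≤ t < |G| + 1 - ones z}` (at most `ones z' - ones z` reservoir
points, `0` if negative), so `∑_{S'} φ - ∑_S φ = ∑_{S' \ S} φ - ∑_{S \ S'} φ ≥ t |iso| - t (ones z' - ones z)^+`.
-/

set_option autoImplicit false

namespace Pool.Agent.Emd

open Finset Pool.Agent.MP_12e089_an Pool.Agent.KhN Pool.Agent.GrO

variable {G : Type} [Fintype G] [DecidableEq G] {M : Type} [Fintype M] [DecidableEq M] {s : ℕ}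

/-- The new sites which are far from all removed sites. -/
noncomputable def iso (δ : G → G → ℝ) (r : ℝ) (z z' : G → Bool) : ℕ :=
  open scoped Classical in
  (univ.filter fun a : G => z a = false ∧ z' a = true ∧
    ∀ b, z b = true → z' b = false → r ≤ δ a b).card

/-- The truncated distance to a finite set. -/
private noncomputable def far_phi {M : Type} [DecidableEq M] (ρ : M → M → ℝ) (t : ℝ)
    (D : Finset M) (x : M) : ℝ :=
  (insert t (D.image (ρ x))).min' (insert_nonempty _ _)

private theorem far_phi_le {M : Type} [DecidableEq M] {ρ : M → M → ℝ} {t : ℝ} {D : Finset M}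
    (x : M) : far_phi ρ t D x ≤ t :=
  min'_le _ _ (mem_insert_self _ _)

private theorem far_phi_le' {M : Type} [DecidableEq M] {ρ : M → M → ℝ} {t : ℝ} {D : Finset M}
    (x : M) {q : M} (hq : q ∈ D) : far_phi ρ t D x ≤ ρ x q :=
  min'_le _ _ (mem_insert_of_mem (mem_image_of_mem _ hq))

private theorem far_le_phi {M : Type} [DecidableEq M] {ρ : M → M → ℝ} {t : ℝ} {D : Finset M}
    {x : M} {u : ℝ} (h1 : u ≤ t) (h2 : ∀ q ∈ D, u ≤ ρ x q) : u ≤ far_phi ρ t D x := by
  refine le_min' _ _ _ fun v hv => ?_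
  rcases mem_insert.1 hv with h | h
  · rw [h]
    exact h1
  · obtain ⟨q, hq, rfl⟩ := mem_image.1 h
    exact h2 q hq

private theorem far_aux {ρ : M → M → ℝ} (hρ : IsMet ρ) (hs : 0 < s) {S S' T D E : Finset M}
    (hS : S.card = s) (hS' : S'.card = s) {t : ℝ} (ht0 : 0 ≤ t) (hT : T ⊆ S' \ S)
    (hTD : ∀ p ∈ T, ∀ q ∈ D, t ≤ ρ p q) (hE : ∀ p ∈ S \ S', p ∈ D ∨ p ∈ E) :
    t * ((T.card : ℝ) - E.card) / s ≤ W1 ρ (unif s S) (unif s S') := by
  refine le_trans ?_ (W1_ge hs hS hS' (far_phi ρ t D) ?_)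
  · have h0 : ∀ x, 0 ≤ far_phi ρ t D x := fun x => far_le_phi ht0 fun q _ => hρ.nonneg _ _
    have h1 : ∑ y ∈ S', far_phi ρ t D y - ∑ x ∈ S, far_phi ρ t D x =
        ∑ y ∈ S' \ S, far_phi ρ t D y - ∑ x ∈ S \ S', far_phi ρ t D x := by
      rw [← sum_sdiff_sub_sum_sdiff]
    have h2 : ∑ x ∈ S \ S', far_phi ρ t D x ≤ t * E.card := by
      have h3 : ∀ x ∈ S \ S', far_phi ρ t D x ≤ if x ∈ E then t else 0 := by
        intro x hx
        split_ifs with h
        · exact far_phi_le x
        · rcases hE x hx with h4 | h4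
          · exact (far_phi_le' x h4).trans (le_of_eq (hρ.self x))
          · exact absurd h4 h
      refine (sum_le_sum h3).trans ?_
      rw [← sum_filter, sum_const, nsmul_eq_mul, mul_comm]
      refine mul_le_mul_of_nonneg_left ?_ ht0
      exact_mod_cast card_le_card fun x hx => (mem_filter.1 hx).2
    have h3 : t * T.card ≤ ∑ y ∈ S' \ S, far_phi ρ t D y := by
      refine le_trans ?_ (sum_le_sum_of_subset_of_nonneg hT fun x _ _ => h0 x)
      rw [mul_comm, ← nsmul_eq_mul]
      exact card_nsmul_le_sum _ _ _ fun x hx => far_le_phi le_rfl (hTD x hx)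
    have h4 : (0 : ℝ) < s := by exact_mod_cast hs
    rw [h1, div_eq_mul_one_div, mul_comm (t * _)]
    refine mul_le_mul_of_nonneg_left ?_ (by positivity)
    rw [mul_sub]
    linarith
  · intro x y
    have h1 : far_phi ρ t D y - ρ x y ≤ far_phi ρ t D x := by
      refine far_le_phi ?_ fun q hq => ?_
      · have := far_phi_le (ρ := ρ) (t := t) (D := D) y
        have := hρ.nonneg x y
        linarith
      · have h2 := far_phi_le' (ρ := ρ) (t := t) y hq
        have h3 := hρ.tri y x q
        have h4 := hρ.symm x y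
        linarith
    linarith

theorem W1_low {ρ : M → M → ℝ} (hρ : IsMet ρ) (hs : 0 < s) (c : Cf G M s)
    (δ : G → G → ℝ) {r t : ℝ} (ht0 : 0 ≤ t)
    (ht : ∀ a b, r ≤ δ a b → t ≤ ρ (c.P (a, false)) (c.P (b, false))) (z z' : G → Bool) :
    t * ((iso δ r z z' : ℝ) - max 0 ((ones z' : ℝ) - ones z)) / s ≤
      W1 ρ (unif s (c.St (emb z))) (unif s (c.St (emb z'))) := by
  classical
  have hn : ∀ w : G → Bool, ones w ≤ Fintype.card G := fun w =>
    (card_filter_le _ _).trans (le_of_eq card_univ)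
  have hc : ∀ w : G → Bool, (c.St (emb w)).card = s := fun w => card_St c _ (by
    rw [npt_emb]
    have := hn w
    omega)
  have hz := hn z
  have hz' := hn z'
  have h1 := far_aux (s := s) hρ hs (hc z) (hc z')
    (T := (univ.filter fun a : G => z a = false ∧ z' a = true ∧
      ∀ b, z b = true → z' b = false → r ≤ δ a b).image fun a => c.P (a, false))
    (D := (univ.filter fun b : G => z b = true ∧ z' b = false).image fun b => c.P (b, false))
    (E := (univ.filter fun u : Fin (Fintype.card G + 1) =>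
      Fintype.card G + 1 - ones z' ≤ (u : ℕ) ∧ (u : ℕ) < Fintype.card G + 1 - ones z).image c.Q)
    ht0 ?_ ?_ ?_
  · refine le_trans ?_ h1
    have h2 : ((univ.filter fun a : G => z a = false ∧ z' a = true ∧
        ∀ b, z b = true → z' b = false → r ≤ δ a b).image fun a => c.P (a, false)).card =
        iso δ r z z' := by
      rw [card_image_of_injective _ fun a b h => congrArg Prod.fst (c.P_inj h)]
      unfold iso
      congr
    have h3 : (((univ.filter fun u : Fin (Fintype.card G + 1) =>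
        Fintype.card G + 1 - ones z' ≤ (u : ℕ) ∧
          (u : ℕ) < Fintype.card G + 1 - ones z).image c.Q).card : ℝ) ≤
        max 0 ((ones z' : ℝ) - ones z) := by
      have h4 : ((univ.filter fun u : Fin (Fintype.card G + 1) =>
          Fintype.card G + 1 - ones z' ≤ (u : ℕ) ∧
            (u : ℕ) < Fintype.card G + 1 - ones z).image c.Q).card ≤ ones z' - ones z := by
        refine card_image_le.trans ?_
        have h5 : (univ.filter fun u : Fin (Fintype.card G + 1) =>
            Fintype.card G + 1 - ones z' ≤ (u : ℕ) ∧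
              (u : ℕ) < Fintype.card G + 1 - ones z).card ≤
            (Ico (Fintype.card G + 1 - ones z') (Fintype.card G + 1 - ones z)).card := by
          rw [← card_image_of_injective _ (Fin.val_injective (n := Fintype.card G + 1))]
          refine card_le_card fun v hv => ?_
          obtain ⟨u, hu, rfl⟩ := mem_image.1 hv
          exact mem_Ico.2 (mem_filter.1 hu).2
        refine h5.trans ?_
        rw [Nat.card_Ico]
        omega
      rcases le_total (ones z) (ones z') with h5 | h5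
      · refine le_trans ?_ (le_max_right _ _)
        rw [← Nat.cast_sub h5]
        exact_mod_cast h4
      · refine le_trans ?_ (le_max_left _ _)
        rw [Nat.sub_eq_zero_of_le h5] at h4
        exact_mod_cast h4
    rw [h2]
    refine div_le_div_of_nonneg_right ?_ (Nat.cast_nonneg _)
    refine mul_le_mul_of_nonneg_left ?_ ht0
    linarith
  · intro p hp
    obtain ⟨a, ha, rfl⟩ := mem_image.1 hp
    obtain ⟨-, h2, h3, -⟩ := mem_filter.1 ha
    rw [mem_sdiff]
    refine ⟨(mem_St_emb c z' _).2 (Or.inl ⟨a, h3, rfl⟩), fun h => ?_⟩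
    rcases (mem_St_emb c z _).1 h with ⟨b, hb, h7⟩ | ⟨t', -, h7⟩ | h7
    · have h8 : b = a := congrArg Prod.fst (c.P_inj h7)
      rw [h8, h2] at hb
      exact absurd hb (by simp)
    · exact c.PQ _ _ h7.symm
    · exact c.PZ _ h7
  · intro p hp q hq
    obtain ⟨a, ha, rfl⟩ := mem_image.1 hp
    obtain ⟨b, hb, rfl⟩ := mem_image.1 hq
    obtain ⟨-, -, -, h2⟩ := mem_filter.1 ha
    obtain ⟨-, h3, h4⟩ := mem_filter.1 hb
    exact ht _ _ (h2 b h3 h4)
  · intro p hp
    obtain ⟨h2, h3⟩ := mem_sdiff.1 hp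
    rcases (mem_St_emb c z _).1 h2 with ⟨b, hb, rfl⟩ | ⟨u, hu, rfl⟩ | h7
    · left
      refine mem_image.2 ⟨b, mem_filter.2 ⟨mem_univ _, hb, ?_⟩, rfl⟩
      by_contra hc'
      exact h3 ((mem_St_emb c z' _).2 (Or.inl ⟨b, by simpa using hc', rfl⟩))
    · right
      refine mem_image.2 ⟨u, mem_filter.2 ⟨mem_univ _, ?_, hu⟩, rfl⟩
      by_contra hc'
      exact h3 ((mem_St_emb c z' _).2 (Or.inr (Or.inl ⟨u, not_le.1 hc', rfl⟩)))
    · exact absurd ((mem_St_emb c z' _).2 (Or.inr (Or.inr h7))) h3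

end Pool.Agent.Emd
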