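import Pool.Agent.Emd.Low
import Pool.Agent.GrP.Ord
import Pool.Agent.GrP.Line

/-!
The order of the distortion for the `ℓ_1` metric and the lower bound for the `ℓ_2` metric, in all
dimensions `d ≥ 2`.
-/

set_option autoImplicit false

namespace Pool.Agent.Emd

open Finset Pool.Agent.MP_12e089_an Pool.Agent.KhN Pool.Agent.GrO

/-- The order for the `ℓ_1` metric. -/
theorem order_one {Δ d s m : ℕ} (hΔ : 2 ≤ Δ) (hd : 2 ≤ d) (hs : 1 ≤ s) (hs' : s < Δ ^ d)
    (hm : m = min s (Δ ^ d - s)) :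
    1 / 1000000 * (1 + Real.log m) ≤ cY1 Δ d s ∧ cY1 Δ d s ≤ 6 + 180 * Real.log m := by
  refine ⟨?_, (Order.main hΔ (by omega) hs hs' hm).1.2⟩
  rcases Nat.lt_or_ge 2 d with h | h
  · exact Emd.low1 hΔ h hs hs' hm
  · obtain rfl : d = 2 := le_antisymm h hd
    have h1 := (GrP.ord_two hΔ hs hs' hm).1.1
    have h2 : (0 : ℝ) ≤ Real.log m := (Order.m_facts hs hs' hm).2.1
    linarith

/-- The lower bound for the `ℓ_2` metric. -/
theorem low_both {Δ d s m : ℕ} (hΔ : 2 ≤ Δ) (hd : 2 ≤ d) (hs : 1 ≤ s) (hs' : s < Δ ^ d)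
    (hm : m = min s (Δ ^ d - s)) :
    1 / 1000000 * (1 + min (Real.log m) (Real.sqrt (Real.log m * Real.log Δ))) ≤ cY2 Δ d s := by
  rcases Nat.lt_or_ge 2 d with h | h
  · exact Emd.low2 hΔ h hs hs' hm
  · obtain rfl : d = 2 := le_antisymm h hd
    have h1 := (GrP.ord_two hΔ hs hs' hm).2.1
    have h2 : (0 : ℝ) ≤ Real.log m := (Order.m_facts hs hs' hm).2.1
    have h3 := min_le_left (Real.log m) (Real.sqrt (Real.log m * Real.log Δ))
    linarith

end Pool.Agent.Emd
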