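import Pool.Agent.Emd.Fin
import Pool.Agent.L2U.Emb

/-!
The order of the distortion for both metrics, for all `Δ`, `d` and `s`.
-/

set_option autoImplicit false

namespace Pool.Agent.Emd

open Finset Pool.Agent.MP_12e089_an

/-- The order for both metrics in all dimensions `d ≥ 2`. -/
theorem full_order : ∃ c C : ℝ, 0 < c ∧ 0 < C ∧ ∀ Δ d s m : ℕ,
    2 ≤ Δ → 2 ≤ d → 1 ≤ s → s < Δ ^ d → m = min s (Δ ^ d - s) →
    (c * (1 + Real.log m) ≤ cY1 Δ d s ∧ cY1 Δ d s ≤ C * (1 + Real.log m)) ∧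
    (c * (1 + min (Real.log m) (Real.sqrt (Real.log m * Real.log Δ))) ≤ cY2 Δ d s ∧
      cY2 Δ d s ≤ C * (1 + min (Real.log m) (Real.sqrt (Real.log m * Real.log Δ)))) := by
  obtain ⟨C, hC, hup⟩ := L2U.up_two
  refine ⟨1 / 1000000, 180 * C, by norm_num, by linarith, fun Δ d s m hΔ hd hs hs' hm => ?_⟩
  obtain ⟨h1, h2⟩ := order_one hΔ hd hs hs' hm
  have h0 : (0 : ℝ) ≤ Real.log m := (Order.m_facts hs hs' hm).2.1
  have h3 : cY2 Δ d s ≤ C * (1 + min (Real.log m) (Real.sqrt (Real.log m * Real.log Δ))) := by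
    have := c1_le (hup Δ d s hΔ (by omega) hs hs')
    rw [hm]
    exact this
  have h4 : 0 ≤ min (Real.log m) (Real.sqrt (Real.log m * Real.log Δ)) :=
    le_min h0 (Real.sqrt_nonneg _)
  refine ⟨⟨h1, ?_⟩, low_both hΔ hd hs hs' hm, ?_⟩
  · nlinarith
  · nlinarith

end Pool.Agent.Emd
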