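import Pool.Agent.Emd.Cf

/-!
MODULE geo (M). The slots in the grid `{1..Δ}^d`.

Proof. For `a : Grid n k`, `b : Bool`: `P (a, b)` has the coordinate `2 a_0 + (1 if b else 0)` at `0`, `2 a_j` for
`1 ≤ j < k` and `0` for `j ≥ k`. Reservoir points: the same but with the coordinate `2 a_1 + 1` at the place `1`
(`k ≥ 2`): these are `2 n^k ≥ n^k + 1` points, take any `n^k + 1` of them. `P` and `Q` are injective and
disjoint (parity of the coordinate `1`). `Z`: there are at least `s - (n^k + 1)` points in the complement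
of both ranges because `Δ^d - 2 n^k - (n^k + 1) ≥ s - (n^k + 1)`, i.e. `s + 2 n^k ≤ Δ^d` (`2 s ≤ Δ^d`, `2 n^k ≤ s`)
(`Finset.exists_subset_card_eq`). All coordinates are `< 2 n ≤ Δ`.
`hH`: at most `k` coordinates differ, each by at most `2 n - 1`. `hB`: `ρ_1 ≤ 2 ρ_1(a, a') + 1`.
`h1`, `h2`: the differences of the coordinates are `2 (a_j - b_j)`.
(Compare `GrO.Geo`.)
-/

set_option autoImplicit false

namespace Pool.Agent.Emd

open Finset Pool.Agent.MP_12e089_an Pool.Agent.KhN Pool.Agent.GrO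

/-- The point with the coordinates `2 a_i + u_i` (`i < k`) and `0`. -/
private def geo_pt {Δ n k m : ℕ} (h0 : 0 < Δ) (hΔ : 2 * n ≤ Δ) (a : Grid n k) (u : Fin k → Fin 2) :
    Grid Δ (k + m) :=
  Fin.addCases (fun i => ⟨2 * (a i : ℕ) + (u i : ℕ), by
    have h1 := (a i).2
    have h2 := (u i).2
    omega⟩) (fun _ => ⟨0, h0⟩)

private theorem geo_pt_l {Δ n k m : ℕ} (h0 : 0 < Δ) (hΔ : 2 * n ≤ Δ) (a : Grid n k)
    (u : Fin k → Fin 2) (i : Fin k) :
    (geo_pt (m := m) h0 hΔ a u (Fin.castAdd m i) : ℕ) = 2 * (a i : ℕ) + (u i : ℕ) := by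
  simp [geo_pt]

private theorem geo_pt_r {Δ n k m : ℕ} (h0 : 0 < Δ) (hΔ : 2 * n ≤ Δ) (a : Grid n k)
    (u : Fin k → Fin 2) (i : Fin m) :
    (geo_pt (m := m) h0 hΔ a u (Fin.natAdd k i) : ℕ) = 0 := by
  simp [geo_pt]

private theorem geo_pt_inj {Δ n k m : ℕ} (h0 : 0 < Δ) (hΔ : 2 * n ≤ Δ) {a a' : Grid n k}
    {u u' : Fin k → Fin 2} (h : geo_pt (m := m) h0 hΔ a u = geo_pt (m := m) h0 hΔ a' u') :
    a = a' ∧ u = u' := by
  have hc : ∀ i : Fin k, a i = a' i ∧ u i = u' i := by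
    intro i
    have h1 : (geo_pt (m := m) h0 hΔ a u (Fin.castAdd m i) : ℕ) =
        geo_pt (m := m) h0 hΔ a' u' (Fin.castAdd m i) := by rw [h]
    rw [geo_pt_l, geo_pt_l] at h1
    have h2 := (u i).2
    have h3 := (u' i).2
    exact ⟨Fin.ext (by omega), Fin.ext (by omega)⟩
  exact ⟨funext fun i => (hc i).1, funext fun i => (hc i).2⟩

private theorem geo_rho1 {Δ k m : ℕ} (x y : Grid Δ (k + m))
    (hx : ∀ i : Fin m, (x (Fin.natAdd k i) : ℕ) = 0)
    (hy : ∀ i : Fin m, (y (Fin.natAdd k i) : ℕ) = 0) :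
    rho1 x y = ∑ i : Fin k, |((x (Fin.castAdd m i) : ℕ) : ℝ) - ((y (Fin.castAdd m i) : ℕ) : ℝ)| := by
  unfold rho1
  rw [Fin.sum_univ_add]
  have : ∑ i : Fin m, |((x (Fin.natAdd k i) : ℕ) : ℝ) - ((y (Fin.natAdd k i) : ℕ) : ℝ)| = 0 := by
    refine Finset.sum_eq_zero fun i _ => ?_
    rw [hx, hy]; simp
  rw [this, add_zero]

private theorem geo_rho2 {Δ k m : ℕ} (x y : Grid Δ (k + m))
    (hx : ∀ i : Fin m, (x (Fin.natAdd k i) : ℕ) = 0)
    (hy : ∀ i : Fin m, (y (Fin.natAdd k i) : ℕ) = 0) :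
    rho2 x y = Real.sqrt
      (∑ i : Fin k, (((x (Fin.castAdd m i) : ℕ) : ℝ) - ((y (Fin.castAdd m i) : ℕ) : ℝ)) ^ 2) := by
  unfold rho2
  rw [Fin.sum_univ_add]
  have : ∑ i : Fin m, (((x (Fin.natAdd k i) : ℕ) : ℝ) - ((y (Fin.natAdd k i) : ℕ) : ℝ)) ^ 2 = 0 := by
    refine Finset.sum_eq_zero fun i _ => ?_
    rw [hx, hy]; simp
  rw [this, add_zero]

private theorem geo_abs {x y w : ℕ} (hx : x < w) (hy : y < w) :
    |(x : ℝ) - (y : ℝ)| ≤ (w : ℝ) := by
  have h1 : (x : ℝ) < w := by exact_mod_cast hx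
  have h2 : (y : ℝ) < w := by exact_mod_cast hy
  have h3 : (0 : ℝ) ≤ x := Nat.cast_nonneg _
  have h4 : (0 : ℝ) ≤ y := Nat.cast_nonneg _
  rw [abs_le]
  constructor <;> linarith

theorem geo {Δ d s n k : ℕ} (hn : 1 ≤ n) (hk : 2 ≤ k) (hkd : k ≤ d) (hΔ : 2 * n ≤ Δ)
    (hs : 2 * n ^ k ≤ s) (hs2 : 2 * s ≤ Δ ^ d) :
    ∃ c : Cf (Grid n k) (Grid Δ d) s,
      (∀ p t, rho1 (c.P p) (c.Q t) ≤ k * (2 * n)) ∧
      (∀ a b a' b', rho1 (c.P (a, b)) (c.P (a', b')) ≤ 2 * rho1 a a' + 1) ∧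
      (∀ a b, rho1 a b ≤ rho1 (c.P (a, false)) (c.P (b, false))) ∧
      (∀ a b, rho2 a b ≤ rho2 (c.P (a, false)) (c.P (b, false))) := by
  classical
  obtain ⟨m, rfl⟩ := Nat.exists_eq_add_of_le hkd
  have h0 : 0 < Δ := by omega
  have hnk : 1 ≤ n ^ k := Nat.one_le_pow _ _ hn
  have hcard : Fintype.card (Grid n k) = n ^ k := by simp
  have hne : (⟨1, by omega⟩ : Fin k) ≠ ⟨0, by omega⟩ := by
    intro h
    exact absurd (congrArg Fin.val h) (by norm_num)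
  -- the shifts
  let uP : Bool → Fin k → Fin 2 := fun b i => if i = ⟨0, by omega⟩ ∧ b = true then 1 else 0
  let uQ : Bool → Fin k → Fin 2 := fun b i =>
    if (i = ⟨0, by omega⟩ ∧ b = true) ∨ i = ⟨1, by omega⟩ then 1 else 0
  have huP0 : ∀ b, uP b ⟨0, by omega⟩ = if b = true then 1 else 0 := by
    intro b
    change (if _ ∧ _ then (1 : Fin 2) else 0) = _
    simp
  have huQ0 : ∀ b, uQ b ⟨0, by omega⟩ = if b = true then 1 else 0 := by
    intro b
    change (if _ ∨ _ then (1 : Fin 2) else 0) = _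
    simp
  have huP1 : ∀ b, uP b ⟨1, by omega⟩ = 0 := by
    intro b
    change (if _ ∧ _ then (1 : Fin 2) else 0) = _
    rw [if_neg]
    rintro ⟨h, -⟩
    exact hne h
  have huQ1 : ∀ b, uQ b ⟨1, by omega⟩ = 1 := by
    intro b
    change (if _ ∨ _ then (1 : Fin 2) else 0) = _
    rw [if_pos]
    exact Or.inr rfl
  have hbb : ∀ b b' : Bool, (if b = true then (1 : Fin 2) else 0) =
      (if b' = true then 1 else 0) → b = b' := by decide
  obtain ⟨e⟩ : Nonempty (Fin (Fintype.card (Grid n k) + 1) ↪ Grid n k × Bool) := by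
    refine Function.Embedding.nonempty_of_card_le ?_
    rw [Fintype.card_fin, Fintype.card_prod, Fintype.card_bool, hcard]
    omega
  let P : Grid n k × Bool → Grid Δ (k + m) := fun p => geo_pt h0 hΔ p.1 (uP p.2)
  let Q : Fin (Fintype.card (Grid n k) + 1) → Grid Δ (k + m) :=
    fun t => geo_pt h0 hΔ (e t).1 (uQ (e t).2)
  have hPl : ∀ p i, (P p (Fin.castAdd m i) : ℕ) = 2 * (p.1 i : ℕ) + (uP p.2 i : ℕ) :=
    fun p i => geo_pt_l h0 hΔ _ _ i
  have hPr : ∀ p i, (P p (Fin.natAdd k i) : ℕ) = 0 := fun p i => geo_pt_r h0 hΔ _ _ i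
  have hQl : ∀ t i, (Q t (Fin.castAdd m i) : ℕ) = 2 * ((e t).1 i : ℕ) + (uQ (e t).2 i : ℕ) :=
    fun t i => geo_pt_l h0 hΔ _ _ i
  have hQr : ∀ t i, (Q t (Fin.natAdd k i) : ℕ) = 0 := fun t i => geo_pt_r h0 hΔ _ _ i
  have hPinj : Function.Injective P := by
    rintro ⟨a, b⟩ ⟨a', b'⟩ h
    obtain ⟨h1, h2⟩ := geo_pt_inj h0 hΔ h
    have h3 := congrFun h2 ⟨0, by omega⟩
    rw [huP0, huP0] at h3
    exact Prod.ext h1 (hbb _ _ h3)
  have hQinj : Function.Injective Q := by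
    intro t t' h
    obtain ⟨h1, h2⟩ := geo_pt_inj h0 hΔ h
    have h3 := congrFun h2 ⟨0, by omega⟩
    rw [huQ0, huQ0] at h3
    exact e.injective (Prod.ext h1 (hbb _ _ h3))
  have hPQ : ∀ p t, P p ≠ Q t := by
    intro p t h
    obtain ⟨h1, h2⟩ := geo_pt_inj h0 hΔ h
    have h3 := congrFun h2 ⟨1, by omega⟩
    rw [huP1, huQ1] at h3
    exact absurd h3 (by decide)
  -- the fixed points
  let A : Finset (Grid Δ (k + m)) := univ.image P ∪ univ.image Q
  have hA : A.card ≤ 2 * n ^ k + (n ^ k + 1) := by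
    refine (Finset.card_union_le _ _).trans (add_le_add ?_ ?_)
    · refine Finset.card_image_le.trans ?_
      rw [Finset.card_univ, Fintype.card_prod, Fintype.card_bool, hcard]
      omega
    · refine Finset.card_image_le.trans ?_
      rw [Finset.card_univ, Fintype.card_fin, hcard]
  have hcA : s - (n ^ k + 1) ≤ Aᶜ.card := by
    rw [Finset.card_compl]
    have : Fintype.card (Grid Δ (k + m)) = Δ ^ (k + m) := by simp
    rw [this]
    omega
  obtain ⟨Z, hZA, hZc⟩ := Finset.exists_subset_card_eq hcA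
  have hPA : ∀ p, P p ∈ A := fun p =>
    Finset.mem_union_left _ (Finset.mem_image.2 ⟨p, Finset.mem_univ _, rfl⟩)
  have hQA : ∀ t, Q t ∈ A := fun t =>
    Finset.mem_union_right _ (Finset.mem_image.2 ⟨t, Finset.mem_univ _, rfl⟩)
  have hPlt : ∀ p i, (P p (Fin.castAdd m i) : ℕ) < 2 * n := by
    intro p i
    rw [hPl]
    have h1 := (p.1 i).2
    have h2 := (uP p.2 i).2
    omega
  have hQlt : ∀ t i, (Q t (Fin.castAdd m i) : ℕ) < 2 * n := by
    intro t i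
    rw [hQl]
    have h1 := ((e t).1 i).2
    have h2 := (uQ (e t).2 i).2
    omega
  have huF : ∀ i, ((uP false i : Fin 2) : ℕ) = 0 := by
    intro i
    change ((if _ ∧ _ then (1 : Fin 2) else 0 : Fin 2) : ℕ) = 0
    simp
  refine ⟨⟨P, Q, Z, hPinj, hQinj, hPQ, fun p h => ?_, fun t h => ?_, ?_⟩, ?_, ?_, ?_, ?_⟩
  · exact (Finset.mem_compl.1 (hZA h)) (hPA p)
  · exact (Finset.mem_compl.1 (hZA h)) (hQA t)
  · rw [hZc, hcard]
    omega
  · intro p t
    change rho1 (P p) (Q t) ≤ _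
    rw [geo_rho1 _ _ (hPr p) (hQr t)]
    have h1 : ∀ i : Fin k, |((P p (Fin.castAdd m i) : ℕ) : ℝ) -
        ((Q t (Fin.castAdd m i) : ℕ) : ℝ)| ≤ (2 * n : ℝ) := by
      intro i
      have h2 := geo_abs (hPlt p i) (hQlt t i)
      push_cast at h2
      exact h2
    calc _ ≤ ∑ _i : Fin k, (2 * n : ℝ) := Finset.sum_le_sum fun i _ => h1 i
      _ = _ := by simp
  · intro a b a' b'
    change rho1 (P (a, b)) (P (a', b')) ≤ _
    rw [geo_rho1 _ _ (hPr _) (hPr _)]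
    have h1 : ∀ i : Fin k, |((P (a, b) (Fin.castAdd m i) : ℕ) : ℝ) -
        ((P (a', b') (Fin.castAdd m i) : ℕ) : ℝ)| ≤
          2 * |((a i : ℕ) : ℝ) - ((a' i : ℕ) : ℝ)| + if i = ⟨0, by omega⟩ then 1 else 0 := by
      intro i
      rw [hPl, hPl]
      have h3 : ((2 * (a i : ℕ) + (uP b i : ℕ) : ℕ) : ℝ) -
          ((2 * (a' i : ℕ) + (uP b' i : ℕ) : ℕ) : ℝ) =
          2 * (((a i : ℕ) : ℝ) - ((a' i : ℕ) : ℝ)) +
            (((uP b i : ℕ) : ℝ) - ((uP b' i : ℕ) : ℝ)) := by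
        push_cast; ring
      rw [h3]
      refine (abs_add_le _ _).trans ?_
      rw [abs_mul, abs_of_nonneg (by norm_num : (0 : ℝ) ≤ 2)]
      refine add_le_add le_rfl ?_
      by_cases hi : i = ⟨0, by omega⟩
      · rw [if_pos hi]
        have h4 : ((uP b i : ℕ) : ℝ) ≤ 1 := by
          exact_mod_cast Nat.lt_succ_iff.1 (uP b i).2
        have h5 : ((uP b' i : ℕ) : ℝ) ≤ 1 := by
          exact_mod_cast Nat.lt_succ_iff.1 (uP b' i).2
        have h6 : (0 : ℝ) ≤ ((uP b i : ℕ) : ℝ) := Nat.cast_nonneg _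
        have h7 : (0 : ℝ) ≤ ((uP b' i : ℕ) : ℝ) := Nat.cast_nonneg _
        rw [abs_le]
        constructor <;> linarith
      · rw [if_neg hi]
        have h4 : ∀ b, uP b i = 0 := by
          intro b
          change (if _ ∧ _ then (1 : Fin 2) else 0) = 0
          rw [if_neg]
          rintro ⟨h, -⟩
          exact hi h
        rw [h4, h4]
        simp
    calc _ ≤ ∑ i : Fin k, (2 * |((a i : ℕ) : ℝ) - ((a' i : ℕ) : ℝ)| +
          if i = ⟨0, by omega⟩ then 1 else 0) :=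
          Finset.sum_le_sum fun i _ => h1 i
      _ = _ := by
        rw [Finset.sum_add_distrib, ← Finset.mul_sum]
        simp [rho1]
  · intro a b
    change _ ≤ rho1 (P (a, false)) (P (b, false))
    rw [geo_rho1 _ _ (hPr _) (hPr _)]
    unfold rho1
    refine Finset.sum_le_sum fun i _ => ?_
    rw [hPl, hPl, huF]
    push_cast
    have h1 : (2 * ((a i : ℕ) : ℝ) + 0 - (2 * ((b i : ℕ) : ℝ) + 0)) =
        2 * (((a i : ℕ) : ℝ) - ((b i : ℕ) : ℝ)) := by ring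
    rw [h1, abs_mul, abs_of_nonneg (by norm_num : (0 : ℝ) ≤ 2)]
    have h2 := abs_nonneg (((a i : ℕ) : ℝ) - ((b i : ℕ) : ℝ))
    linarith
  · intro a b
    change _ ≤ rho2 (P (a, false)) (P (b, false))
    rw [geo_rho2 _ _ (hPr _) (hPr _)]
    unfold rho2
    refine Real.sqrt_le_sqrt (Finset.sum_le_sum fun i _ => ?_)
    rw [hPl, hPl, huF]
    push_cast
    nlinarith [sq_nonneg (((a i : ℕ) : ℝ) - ((b i : ℕ) : ℝ))]

end Pool.Agent.Emd
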