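import Pool.Agent.Emd.Core
import Pool.Agent.Emd.Geo
import Pool.Agent.GrO.Fin

/-!
`main_low`: `geo` with `n = 2^J`, `core` with `δ = rho1`, `τ = k` (`GrO.ball1`) resp. `δ = rho2`, `τ = √k`
(`GrO.ball2`). `low1`, `low2`: the choice of `k` and `J`.
-/

set_option autoImplicit false

namespace Pool.Agent.Emd

open Finset Pool.Agent.MP_12e089_an Pool.Agent.KhN Pool.Agent.GrO

private theorem low_rho2_le {Δ d : ℕ} (x y : Grid Δ d) : rho2 x y ≤ rho1 x y := by
  have h0 : (0 : ℝ) ≤ rho1 x y := isMet_rho1.nonneg x y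
  have h1 : ∑ i, (((x i : ℕ) : ℝ) - ((y i : ℕ) : ℝ)) ^ 2 ≤ (rho1 x y) ^ 2 := by
    unfold rho1
    refine le_trans (le_of_eq ?_) (sum_sq_le_sq_sum_of_nonneg fun i _ => abs_nonneg _)
    refine sum_congr rfl fun i _ => ?_
    rw [sq_abs]
  unfold rho2
  exact (Real.sqrt_le_sqrt h1).trans (le_of_eq (Real.sqrt_sq h0))

private theorem low_upd {n k : ℕ} (a : Grid n k) (j : Fin k) (h : (a j : ℕ) + 1 < n) :
    rho1 (upd a j h) a = 1 := by
  unfold rho1
  rw [sum_eq_single j]
  · unfold upd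
    rw [Function.update_self]
    push_cast
    rw [add_sub_cancel_left, abs_one]
  · intro i _ hi
    unfold upd
    rw [Function.update_of_ne hi, sub_self, abs_zero]
  · intro h1
    exact absurd (mem_univ _) h1

theorem main_low {Δ d s J k : ℕ} (hJ : 11 ≤ J) (hk : 3 ≤ k) (hkd : k ≤ d)
    (hΔ : 2 ^ (J + 1) ≤ Δ) (hs : 2 * 2 ^ (J * k) ≤ s) (hs2 : 2 * s ≤ Δ ^ d) {D : ℝ} :
    (EmbedsL1 (fun μ ν : Y Δ d s => W1 rho1 μ.1 ν.1) D →
      (k : ℝ) * ((J : ℝ) - 10) / 14008 ≤ D) ∧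
    (EmbedsL1 (fun μ ν : Y Δ d s => W1 rho2 μ.1 ν.1) D →
      Real.sqrt k * ((J : ℝ) - 10) / 14008 ≤ D) := by
  classical
  have hsp : 0 < s := lt_of_lt_of_le (by positivity) hs
  have hΔ' : 2 * 2 ^ J ≤ Δ := by
    rw [pow_succ] at hΔ
    linarith
  have hs' : 2 * (2 ^ J) ^ k ≤ s := by
    rw [← pow_mul]
    exact hs
  obtain ⟨c, hc1, hc2, hc3, hc4⟩ := geo (n := 2 ^ J) (k := k) Nat.one_le_two_pow (by omega) hkd
    hΔ' hs' hs2
  have h1 : ∀ p t, rho1 (c.P p) (c.Q t) ≤ k * 2 ^ (J + 1) := by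
    intro p t
    refine (hc1 p t).trans (le_of_eq ?_)
    push_cast
    rw [pow_succ]
    ring
  have h2 : ∀ a j h b b', rho1 (c.P (upd a j h, b')) (c.P (a, b)) ≤ 3 := by
    intro a j h b b'
    have h3 := hc2 (upd a j h) b' a b
    rw [low_upd] at h3
    linarith
  refine ⟨fun hE => ?_, fun hE => ?_⟩
  · refine core hk hJ hsp isMet_rho1 c rho1 (Nat.cast_nonneg k) h1 h2 hc3 (fun i hi x => ?_) hE
    exact ball1 (by omega) hi x
  · refine core hk hJ hsp isMet_rho2 c rho2 (Real.sqrt_nonneg _)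
      (fun p t => (low_rho2_le _ _).trans (h1 p t))
      (fun a j h b b' => (low_rho2_le _ _).trans (h2 a j h b b')) hc4 (fun i hi x => ?_) hE
    exact ball2 (by omega) hi x

/-- `main_low` for `cY1`. -/
private theorem ord1_fin {Δ d s m J k : ℕ} (hΔ : 2 ≤ Δ) (hs : 1 ≤ s) (hs' : s < Δ ^ d)
    (hm : m = min s (Δ ^ d - s)) (hJ : 11 ≤ J) (hk : 3 ≤ k) (hkd : k ≤ d)
    (hΔJ : 2 ^ (J + 1) ≤ Δ) (hmJ : 2 * 2 ^ (J * k) ≤ m) :
    (k : ℝ) * ((J : ℝ) - 10) ≤ 14008 * cY1 Δ d s := by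
  have hm1 : 1 ≤ m := by omega
  have hm2 : 2 * m ≤ Δ ^ d := by omega
  have hne := (Order.to_m isMet_rho1 hs hs').2
    (hm ▸ (Order.up_log (Δ := Δ) (d := d) (s := m) hΔ (by omega) hm1).1)
  have hfin : (k : ℝ) * ((J : ℝ) - 10) / 14008 ≤ cY1 Δ d s := by
    refine (le_max_right 1 _).trans (Order.lower hne fun D hD => ?_)
    have hD' := (Order.to_m isMet_rho1 hs hs').1 hD
    rw [← hm] at hD'
    exact (main_low hJ hk hkd hΔJ hmJ hm2).1 hD'
  rw [div_le_iff₀ (by norm_num)] at hfin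
  linarith

/-- Bounds for the logarithm by the binary logarithm. -/
private theorem ord1_log {n : ℕ} (hn : 1 ≤ n) : Real.log n ≤ 0.7 * ((Nat.log 2 n : ℕ) + 1 : ℝ) := by
  have h2 : 0 < Real.log 2 := Real.log_pos (by norm_num)
  have h2b := Real.log_two_lt_d9
  have h1 : n < 2 ^ (Nat.log 2 n + 1) := Nat.lt_pow_succ_log_self (by norm_num) n
  have h3 : (n : ℝ) ≤ 2 ^ (Nat.log 2 n + 1) := by exact_mod_cast h1.le
  have h4 := Real.log_le_log (by exact_mod_cast (by omega : 0 < n)) h3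
  rw [Real.log_pow] at h4
  push_cast at h4
  have h5 : (0 : ℝ) ≤ (Nat.log 2 n : ℕ) := Nat.cast_nonneg _
  nlinarith

theorem low1 {Δ d s m : ℕ} (hΔ : 2 ≤ Δ) (hd : 3 ≤ d) (hs : 1 ≤ s) (hs' : s < Δ ^ d)
    (hm : m = min s (Δ ^ d - s)) :
    1 / 1000000 * (1 + Real.log m) ≤ cY1 Δ d s := by
  have hm1 : 1 ≤ m := by omega
  have hd0 : (0 : ℝ) < d := by exact_mod_cast (by omega : 0 < d)
  have hland := (Order.main hΔ (by omega) hs hs' hm).1.1
  have hland' : min (d : ℝ) (Real.logb 2 m) / 256 ≤ cY1 Δ d s :=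
    (le_max_right _ _).trans hland
  have hc1 : (1 : ℝ) ≤ cY1 Δ d s := (le_max_left _ _).trans hland
  have hlm := log_le_logb hm1
  obtain ⟨_, hL0, hLd⟩ := Order.m_facts hs hs' hm
  have hfin := fun J k => ord1_fin (J := J) (k := k) hΔ hs hs' hm
  obtain ⟨X, hX⟩ : ∃ X, X = cY1 Δ d s := ⟨_, rfl⟩
  rw [← hX] at hland' hc1 hfin ⊢
  obtain ⟨L, hL⟩ : ∃ L, L = Real.log m := ⟨_, rfl⟩
  obtain ⟨l, hl⟩ : ∃ l, l = Real.log Δ := ⟨_, rfl⟩
  rw [← hL] at hlm hL0 hLd ⊢
  rw [← hl] at hLd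
  suffices h : L ≤ 500000 * X by linarith
  rcases lt_or_ge Δ (2 ^ 13) with hA | hA
  · -- small `Δ`
    have h1 : l ≤ 10 := by
      have h2 : (Δ : ℝ) ≤ 2 ^ 13 := by exact_mod_cast hA.le
      have h3 := Real.log_le_log (by exact_mod_cast (by omega : 0 < Δ)) h2
      rw [Real.log_pow, ← hl] at h3
      have := Real.log_two_lt_d9
      push_cast at h3
      linarith
    have h2 : L / 10 ≤ min (d : ℝ) (Real.logb 2 m) := by
      refine le_min ?_ ?_
      · nlinarith
      · linarith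
    linarith
  · have hq : 13 ≤ Nat.log 2 Δ := (Nat.le_log_iff_pow_le (by norm_num) (by omega)).2 hA
    obtain ⟨q, hq'⟩ : ∃ q, Nat.log 2 Δ = q + 1 := ⟨Nat.log 2 Δ - 1, by omega⟩
    have hq12 : 12 ≤ q := by omega
    have hq12' : (12 : ℝ) ≤ q := by exact_mod_cast hq12
    have hΔq : 2 ^ (q + 1) ≤ Δ := by
      rw [← hq']
      exact Nat.pow_log_le_self 2 (by omega)
    have hlq : l ≤ 0.82 * q := by
      have h := ord1_log (n := Δ) (by omega)
      rw [hq', ← hl] at h
      push_cast at h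
      linarith
    have hq6 : (q : ℝ) / 6 ≤ (q : ℝ) - 10 := by linarith
    have hLN := ord1_log (n := m) hm1
    rw [← hL] at hLN
    rcases lt_or_ge (Nat.log 2 m) 67 with hB | hB
    · have h1 : ((Nat.log 2 m : ℕ) : ℝ) ≤ 66 := by exact_mod_cast (by omega : Nat.log 2 m ≤ 66)
      linarith
    · obtain ⟨T, hT⟩ : ∃ T, Nat.log 2 m = T + 1 := ⟨Nat.log 2 m - 1, by omega⟩
      have hT66 : 66 ≤ T := by omega
      have hT66' : (66 : ℝ) ≤ T := by exact_mod_cast hT66
      have hmT : 2 ^ (T + 1) ≤ m := by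
        rw [← hT]
        exact Nat.pow_log_le_self 2 (by omega)
      have hLT : L ≤ 0.75 * T := by
        rw [hT] at hLN
        push_cast at hLN
        linarith
      have hpow : ∀ J k : ℕ, J * k ≤ T → 2 * 2 ^ (J * k) ≤ m := by
        intro J k h
        calc 2 * 2 ^ (J * k) = 2 ^ (J * k + 1) := by ring
          _ ≤ 2 ^ (T + 1) := Nat.pow_le_pow_right (by norm_num) (by omega)
          _ ≤ m := hmT
      rcases le_or_gt (q * d) T with hC | hC
      · -- `k = d`
        have h1 := hfin q d (by omega) hd le_rfl hΔq (hpow q d hC)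
        have h3 : (d : ℝ) * ((q : ℝ) / 6) ≤ 14008 * X :=
          (mul_le_mul_of_nonneg_left hq6 hd0.le).trans h1
        have h5 : (d : ℝ) * l ≤ d * (0.82 * q) := mul_le_mul_of_nonneg_left hlq hd0.le
        linarith
      · rcases lt_or_ge T (q * 3) with hD | hD
        · -- `k = 3`
          have hJ1 : T / 3 * 3 ≤ T := Nat.div_mul_le_self T 3
          have hJ2 : 22 ≤ T / 3 := by omega
          have hJ3 : T / 3 ≤ q := by omega
          have h1 := hfin (T / 3) 3 (by omega) le_rfl hd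
            ((Nat.pow_le_pow_right (by norm_num) (by omega)).trans hΔq) (hpow _ _ hJ1)
          push_cast at h1
          have h3 : (T : ℝ) ≤ 3 * ((T / 3 : ℕ) : ℝ) + 2 := by
            have : T ≤ 3 * (T / 3) + 2 := by omega
            exact_mod_cast this
          push_cast at h3
          linarith
        · -- the middle range
          have hq0 : 0 < q := by omega
          have hk1 : 3 ≤ T / q := (Nat.le_div_iff_mul_le hq0).2 (by rw [mul_comm]; exact hD)
          have hk2 : T / q ≤ d := by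
            have : T / q < d := (Nat.div_lt_iff_lt_mul hq0).2 (by rw [mul_comm]; exact hC)
            exact this.le
          have hk3 : q * (T / q) ≤ T := Nat.mul_div_le T q
          have h1 := hfin q (T / q) (by omega) hk1 hk2 hΔq (hpow _ _ hk3)
          have hk4 : T ≤ 2 * (T / q) * q := by
            have h2 : T < q * (T / q + 1) := Nat.lt_mul_div_succ T hq0
            nlinarith
          have hk5 : (T : ℝ) ≤ 2 * ((T / q : ℕ) : ℝ) * q := by exact_mod_cast hk4
          have hk0 : (0 : ℝ) ≤ ((T / q : ℕ) : ℝ) := Nat.cast_nonneg _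
          have h2 : ((T / q : ℕ) : ℝ) * ((q : ℝ) / 6) ≤ 14008 * X :=
            (mul_le_mul_of_nonneg_left hq6 hk0).trans h1
          linarith

/-- `main_low` for `cY2`. -/
private theorem ord2_fin {Δ d s m J k : ℕ} (hΔ : 2 ≤ Δ) (hs : 1 ≤ s) (hs' : s < Δ ^ d)
    (hm : m = min s (Δ ^ d - s)) (hJ : 11 ≤ J) (hk : 3 ≤ k) (hkd : k ≤ d)
    (hΔJ : 2 ^ (J + 1) ≤ Δ) (hmJ : 2 * 2 ^ (J * k) ≤ m) :
    Real.sqrt k * ((J : ℝ) - 10) ≤ 14008 * cY2 Δ d s := by
  have hm1 : 1 ≤ m := by omega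
  have hm2 : 2 * m ≤ Δ ^ d := by omega
  have hne := (Order.to_m isMet_rho2 hs hs').2
    (hm ▸ (Order.up_log (Δ := Δ) (d := d) (s := m) hΔ (by omega) hm1).2)
  have hfin : Real.sqrt k * ((J : ℝ) - 10) / 14008 ≤ cY2 Δ d s := by
    refine (le_max_right 1 _).trans (Order.lower hne fun D hD => ?_)
    have hD' := (Order.to_m isMet_rho2 hs hs').1 hD
    rw [← hm] at hD'
    exact (main_low hJ hk hkd hΔJ hmJ hm2).2 hD'
  rw [div_le_iff₀ (by norm_num)] at hfin
  linarith

/-- Bounds for the logarithm by the binary logarithm. -/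
private theorem ord2_log {n : ℕ} (hn : 1 ≤ n) : Real.log n ≤ 0.7 * ((Nat.log 2 n : ℕ) + 1 : ℝ) := by
  have h2 : 0 < Real.log 2 := Real.log_pos (by norm_num)
  have h2b := Real.log_two_lt_d9
  have h1 : n < 2 ^ (Nat.log 2 n + 1) := Nat.lt_pow_succ_log_self (by norm_num) n
  have h3 : (n : ℝ) ≤ 2 ^ (Nat.log 2 n + 1) := by exact_mod_cast h1.le
  have h4 := Real.log_le_log (by exact_mod_cast (by omega : 0 < n)) h3
  rw [Real.log_pow] at h4
  push_cast at h4
  have h5 : (0 : ℝ) ≤ (Nat.log 2 n : ℕ) := Nat.cast_nonneg _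
  nlinarith

/-- Comparison of square roots. -/
private theorem ord2_sqrt {x y : ℝ} {c X : ℝ} (hc : 0 ≤ c) (hy : 0 ≤ y) (h : x ≤ c ^ 2 * y)
    (hX : Real.sqrt y ≤ X) : Real.sqrt x ≤ c * X := by
  have h1 : Real.sqrt x ≤ c * Real.sqrt y := by
    refine Real.sqrt_le_iff.2 ⟨by positivity, ?_⟩
    rw [mul_pow, Real.sq_sqrt hy]
    exact h
  exact h1.trans (mul_le_mul_of_nonneg_left hX hc)

theorem low2 {Δ d s m : ℕ} (hΔ : 2 ≤ Δ) (hd : 3 ≤ d) (hs : 1 ≤ s) (hs' : s < Δ ^ d)
    (hm : m = min s (Δ ^ d - s)) :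
    1 / 1000000 * (1 + min (Real.log m) (Real.sqrt (Real.log m * Real.log Δ))) ≤ cY2 Δ d s := by
  have hm1 : 1 ≤ m := by omega
  have hd0 : (0 : ℝ) < d := by exact_mod_cast (by omega : 0 < d)
  have hland := (Order.main hΔ (by omega) hs hs' hm).2.1
  have hland' : Real.sqrt (min (d : ℝ) (Real.logb 2 m)) / 64 ≤ cY2 Δ d s :=
    (le_max_right _ _).trans hland
  have hc1 : (1 : ℝ) ≤ cY2 Δ d s := (le_max_left _ _).trans hland
  have hlm := log_le_logb hm1
  obtain ⟨_, hL0, hLd⟩ := Order.m_facts hs hs' hm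
  have hfin := fun J k => ord2_fin (J := J) (k := k) hΔ hs hs' hm
  obtain ⟨X, hX⟩ : ∃ X, X = cY2 Δ d s := ⟨_, rfl⟩
  rw [← hX] at hland' hc1 hfin ⊢
  obtain ⟨L, hL⟩ : ∃ L, L = Real.log m := ⟨_, rfl⟩
  obtain ⟨l, hl⟩ : ∃ l, l = Real.log Δ := ⟨_, rfl⟩
  rw [← hL] at hlm hL0 hLd ⊢
  rw [← hl] at hLd ⊢
  have hl0 : 0 ≤ l := by
    rw [hl]
    exact Real.log_nonneg (by exact_mod_cast (by omega : 1 ≤ Δ))
  suffices h : min L (Real.sqrt (L * l)) ≤ 500000 * X by linarith
  rcases lt_or_ge Δ (2 ^ 13) with hA | hA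
  · -- small `Δ`
    refine (min_le_right _ _).trans ?_
    have h1 : l ≤ 10 := by
      have h2 : (Δ : ℝ) ≤ 2 ^ 13 := by exact_mod_cast hA.le
      have h3 := Real.log_le_log (by exact_mod_cast (by omega : 0 < Δ)) h2
      rw [Real.log_pow, ← hl] at h3
      have := Real.log_two_lt_d9
      push_cast at h3
      linarith
    have h2 : L / 10 ≤ min (d : ℝ) (Real.logb 2 m) := by
      refine le_min ?_ ?_
      · nlinarith
      · linarith
    have h3 : Real.sqrt (L / 10) ≤ 64 * X := by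
      have := Real.sqrt_le_sqrt h2
      linarith
    have h4 : Real.sqrt (L * l) ≤ 10 * (64 * X) := by
      refine ord2_sqrt (by norm_num) (by positivity) ?_ h3
      nlinarith
    linarith
  · have hq : 13 ≤ Nat.log 2 Δ := (Nat.le_log_iff_pow_le (by norm_num) (by omega)).2 hA
    obtain ⟨q, hq'⟩ : ∃ q, Nat.log 2 Δ = q + 1 := ⟨Nat.log 2 Δ - 1, by omega⟩
    have hq12 : 12 ≤ q := by omega
    have hq12' : (12 : ℝ) ≤ q := by exact_mod_cast hq12
    have hΔq : 2 ^ (q + 1) ≤ Δ := by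
      rw [← hq']
      exact Nat.pow_log_le_self 2 (by omega)
    have hlq : l ≤ 0.82 * q := by
      have h := ord2_log (n := Δ) (by omega)
      rw [hq', ← hl] at h
      push_cast at h
      linarith
    have hq6 : (q : ℝ) / 6 ≤ (q : ℝ) - 10 := by linarith
    have hLN := ord2_log (n := m) hm1
    rw [← hL] at hLN
    rcases lt_or_ge (Nat.log 2 m) 67 with hB | hB
    · refine (min_le_left _ _).trans ?_
      have h1 : ((Nat.log 2 m : ℕ) : ℝ) ≤ 66 := by exact_mod_cast (by omega : Nat.log 2 m ≤ 66)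
      linarith
    · obtain ⟨T, hT⟩ : ∃ T, Nat.log 2 m = T + 1 := ⟨Nat.log 2 m - 1, by omega⟩
      have hT66 : 66 ≤ T := by omega
      have hT66' : (66 : ℝ) ≤ T := by exact_mod_cast hT66
      have hmT : 2 ^ (T + 1) ≤ m := by
        rw [← hT]
        exact Nat.pow_log_le_self 2 (by omega)
      have hLT : L ≤ 0.75 * T := by
        rw [hT] at hLN
        push_cast at hLN
        linarith
      have hpow : ∀ J k : ℕ, J * k ≤ T → 2 * 2 ^ (J * k) ≤ m := by
        intro J k h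
        calc 2 * 2 ^ (J * k) = 2 ^ (J * k + 1) := by ring
          _ ≤ 2 ^ (T + 1) := Nat.pow_le_pow_right (by norm_num) (by omega)
          _ ≤ m := hmT
      rcases le_or_gt (q * d) T with hC | hC
      · -- `k = d`
        refine (min_le_right _ _).trans ?_
        have h1 := hfin q d (by omega) hd le_rfl hΔq (hpow q d hC)
        have h2 := Real.sqrt_nonneg (d : ℝ)
        have h3 : Real.sqrt d * ((q : ℝ) / 6) ≤ 14008 * X :=
          (mul_le_mul_of_nonneg_left hq6 h2).trans h1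
        have h4 : Real.sqrt (L * l) ≤ Real.sqrt d * l := by
          refine Real.sqrt_le_iff.2 ⟨by positivity, ?_⟩
          rw [mul_pow, Real.sq_sqrt hd0.le]
          nlinarith
        have h5 : Real.sqrt d * l ≤ Real.sqrt d * (0.82 * q) := mul_le_mul_of_nonneg_left hlq h2
        linarith
      · rcases lt_or_ge T (q * 3) with hD | hD
        · -- `k = 3`
          refine (min_le_left _ _).trans ?_
          have hJ1 : T / 3 * 3 ≤ T := Nat.div_mul_le_self T 3
          have hJ2 : 22 ≤ T / 3 := by omega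
          have hJ3 : T / 3 ≤ q := by omega
          have h1 := hfin (T / 3) 3 (by omega) le_rfl hd
            ((Nat.pow_le_pow_right (by norm_num) (by omega)).trans hΔq) (hpow _ _ hJ1)
          have h2 : (1.7 : ℝ) ≤ Real.sqrt ((3 : ℕ) : ℝ) := by
            refine Real.le_sqrt_of_sq_le ?_
            norm_num
          have h3 : (T : ℝ) ≤ 3 * ((T / 3 : ℕ) : ℝ) + 2 := by
            have : T ≤ 3 * (T / 3) + 2 := by omega
            exact_mod_cast this
          have h4 : (T : ℝ) / 6 ≤ ((T / 3 : ℕ) : ℝ) - 10 := by linarith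
          have h5 : 1.7 * ((T : ℝ) / 6) ≤ 14008 * X :=
            (mul_le_mul h2 h4 (by positivity) (Real.sqrt_nonneg _)).trans h1
          linarith
        · -- the middle range
          refine (min_le_right _ _).trans ?_
          have hq0 : 0 < q := by omega
          have hk1 : 3 ≤ T / q := (Nat.le_div_iff_mul_le hq0).2 (by rw [mul_comm]; exact hD)
          have hk2 : T / q ≤ d := by
            have : T / q < d := (Nat.div_lt_iff_lt_mul hq0).2 (by rw [mul_comm]; exact hC)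
            exact this.le
          have hk3 : q * (T / q) ≤ T := Nat.mul_div_le T q
          have h1 := hfin q (T / q) (by omega) hk1 hk2 hΔq (hpow _ _ hk3)
          have hk4 : T ≤ 2 * (T / q) * q := by
            have h2 : T < q * (T / q + 1) := Nat.lt_mul_div_succ T hq0
            nlinarith
          have hk5 : (T : ℝ) ≤ 2 * ((T / q : ℕ) : ℝ) * q := by exact_mod_cast hk4
          have hk0 : (0 : ℝ) ≤ ((T / q : ℕ) : ℝ) := Nat.cast_nonneg _
          have hq0' : (0 : ℝ) < q := by exact_mod_cast hq0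
          have h2 : Real.sqrt ((T / q : ℕ) : ℝ) * ((q : ℝ) / 6) ≤ 14008 * X :=
            (mul_le_mul_of_nonneg_left hq6 (Real.sqrt_nonneg _)).trans h1
          have h3 : Real.sqrt (((T / q : ℕ) : ℝ) * q ^ 2) ≤ 6 * (14008 * X) := by
            rw [Real.sqrt_mul hk0, Real.sqrt_sq hq0'.le]
            linarith
          have h4 : Real.sqrt (L * l) ≤ 2 * (6 * (14008 * X)) := by
            refine ord2_sqrt (by norm_num) (by positivity) ?_ h3
            have h5 : L * l ≤ 0.75 * T * (0.82 * q) :=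
              mul_le_mul hLT hlq hl0 (by positivity)
            have h6 : 0.75 * (T : ℝ) * (0.82 * q) ≤
                0.75 * (2 * ((T / q : ℕ) : ℝ) * q) * (0.82 * q) := by
              refine mul_le_mul_of_nonneg_right ?_ (by positivity)
              linarith
            have h7 : 0 ≤ ((T / q : ℕ) : ℝ) * (q : ℝ) ^ 2 := by positivity
            nlinarith
          linarith

end Pool.Agent.Emd
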