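import Pool.Agent.Emd.Far

/-!
MODULE rnd (M). The mean number of isolated new sites.

`rnd_low`: uniform `c`, `u`, `z`, `z' = rep e c u z`, sites `x_q = e.symm (q, c q)`. Only the sites `x_q` may
change. With `α_q = 1[z x_q = false, u q = true]`, `β_q = 1[z x_q = true, u q = false]`:
`iso ≥ ∑_q α_q (1 - ∑_{q' ≠ q} β_q' 1[δ x_q x_q' < r])` (`x_q` is injective in `q`),
`ones z' - ones z = ∑_q (α_q - β_q)`.
Means: `E α_q = 1/4`, for `q' ≠ q` `α_q`, `β_q'` and `(c q, c q')` are independent, `E β_q' = 1/4`, and for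
fixed `x_q` the mean of `∑_{q' ≠ q} 1[δ x_q x_q' < r]` is at most `#{y | δ x_q y < r} / m ≤ 1/2`
(for each `q'` the mean over `c q'` is `#{p | δ x_q (e.symm (q', p)) < r} / m`). So the mean of the first
expression is at least `K (1/4 - 1/32)`. Second: `X = ∑_q (α_q - β_q)`, the variables `α_q - β_q` are independent with
mean `0` and second moment `1/2`, so `E X^2 = K/2`, and `max 0 X ≤ X^2 / (K/8) + K/32`, mean at most
`4 + K/32 ≤ 3K/32` for `K ≥ 64`. Total at least `K (7/32 - 3/32) = K/8`.
Hint: write `z` on the sites as independent bits: for fixed `c` the pair (`u`, `z ∘ site`) is uniform on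
`(Fin K → Bool)^2` (sum over `z` = sum over the values on the sites and over the rest; helper lemma:
for injective `s : Fin K → G`, `∑_z Ψ (z ∘ s) = 2^(|G| - K) ∑_v Ψ v`). You may split the module in the lemmas
`rnd_iso` and `rnd_dif` (both stated below).
-/

set_option autoImplicit false

namespace Pool.Agent.Emd

open Finset Pool.Agent.MP_12e089_an Pool.Agent.KhN Pool.Agent.GrO

/-- Averaging over one coordinate. -/
private theorem rndi_upd {ι Ω : Type} [Fintype ι] [DecidableEq ι] [Fintype Ω] (j : ι)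
    (F : (ι → Ω) → ℝ) :
    ∑ w, ∑ ω, F (Function.update w j ω) = Fintype.card Ω * ∑ w, F w := by
  have inv : Function.Involutive (fun p : (ι → Ω) × Ω => (Function.update p.1 j p.2, p.1 j)) := by
    rintro ⟨w, ω⟩
    simp only [Function.update_self, Function.update_idem, Function.update_eq_self]
  calc ∑ w, ∑ ω, F (Function.update w j ω)
      = ∑ p : (ι → Ω) × Ω, F (Function.update p.1 j p.2) := by
        rw [Fintype.sum_prod_type]
    _ = ∑ p : (ι → Ω) × Ω, F p.1 := by
        exact Equiv.sum_comp inv.toPerm (fun p : (ι → Ω) × Ω => F p.1)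
    _ = Fintype.card Ω * ∑ w, F w := by
        rw [Fintype.sum_prod_type, Finset.mul_sum]
        refine Finset.sum_congr rfl fun w _ => ?_
        change ∑ _y : Ω, F w = _
        rw [Finset.sum_const, Finset.card_univ, nsmul_eq_mul]

private theorem rndi_bit {ι : Type} [Fintype ι] [DecidableEq ι] (a : ι) (v : Bool)
    (F : (ι → Bool) → ℝ) (hF : ∀ w b, F (Function.update w a b) = F w) :
    ∑ w, (if w a = v then (1 : ℝ) else 0) * F w = 1 / 2 * ∑ w, F w := by
  have h := rndi_upd a (fun w : ι → Bool => (if w a = v then (1 : ℝ) else 0) * F w)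
  simp only [Function.update_self, hF, Fintype.sum_bool, Fintype.card_bool, Nat.cast_ofNat] at h
  have h2 : ∀ w : ι → Bool, (if true = v then (1 : ℝ) else 0) * F w +
      (if false = v then (1 : ℝ) else 0) * F w = F w := by
    intro w
    cases v <;> simp
  rw [Finset.sum_congr rfl fun w _ => h2 w] at h
  linarith

private theorem rndi_one {ι : Type} [Fintype ι] [DecidableEq ι] (a : ι) (v : Bool) :
    ∑ w : ι → Bool, (if w a = v then (1 : ℝ) else 0) = 1 / 2 * 2 ^ Fintype.card ι := by
  have h := rndi_bit a v (fun _ => 1) fun _ _ => rfl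
  simp only [mul_one, Finset.sum_const, Finset.card_univ, Fintype.card_fun, Fintype.card_bool,
    nsmul_eq_mul] at h
  push_cast at h
  exact h

private theorem rndi_two {ι : Type} [Fintype ι] [DecidableEq ι] {a b : ι} (hab : a ≠ b)
    (v v' : Bool) :
    ∑ w : ι → Bool, (if w a = v then (1 : ℝ) else 0) * (if w b = v' then (1 : ℝ) else 0) =
      1 / 4 * 2 ^ Fintype.card ι := by
  rw [rndi_bit a v (fun w => if w b = v' then (1 : ℝ) else 0) fun w c => by
    rw [Function.update_of_ne (Ne.symm hab)], rndi_one]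
  ring

variable {G : Type} [Fintype G] [DecidableEq G] {K m : ℕ}

omit [DecidableEq G] in
open scoped Classical in
private theorem rndi_pt (e : G ≃ Fin K × Fin m) (δ : G → G → ℝ) (r : ℝ) (c : Fin K → Fin m)
    (u : Fin K → Bool) (z : G → Bool) :
    ∑ q : Fin K, ((if z (e.symm (q, c q)) = false then (1 : ℝ) else 0) *
      (if u q = true then (1 : ℝ) else 0) -
      ∑ q' ∈ univ.erase q, (if z (e.symm (q, c q)) = false then (1 : ℝ) else 0) *
        (if u q = true then (1 : ℝ) else 0) *
        ((if z (e.symm (q', c q')) = true then (1 : ℝ) else 0) *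
        (if u q' = false then (1 : ℝ) else 0)) *
        (if δ (e.symm (q, c q)) (e.symm (q', c q')) < r then (1 : ℝ) else 0)) ≤
      (iso δ r z (rep e c u z) : ℝ) := by
  set good : Finset (Fin K) := univ.filter fun q => z (e.symm (q, c q)) = false ∧ u q = true ∧
    ∀ q', z (e.symm (q', c q')) = true → u q' = false →
      r ≤ δ (e.symm (q, c q)) (e.symm (q', c q')) with hgood
  have h1 : good.card ≤ iso δ r z (rep e c u z) := by
    unfold iso
    refine Finset.card_le_card_of_injOn (fun q => e.symm (q, c q)) ?_ ?_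
    · intro q hq
      simp only [hgood, Finset.coe_filter, Finset.mem_univ, true_and, Set.mem_ofPred_eq] at hq ⊢
      obtain ⟨hq1, hq2, hq3⟩ := hq
      refine ⟨hq1, ?_, fun b hb hb' => ?_⟩
      · simp [rep, hq2]
      · unfold rep at hb'
        split_ifs at hb' with h
        · have hb2 : e.symm ((e b).1, c (e b).1) = b := by
            rw [h, Prod.mk.eta, Equiv.symm_apply_apply]
          have h3 := hq3 (e b).1 (by rw [hb2]; exact hb) hb'
          rw [hb2] at h3
          exact h3
        · rw [hb] at hb'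
          exact absurd hb' (by simp)
    · intro q _ q' _ h
      have := e.symm.injective h
      exact (Prod.ext_iff.1 this).1
  have h2 : (good.card : ℝ) = ∑ q, if q ∈ good then (1 : ℝ) else 0 := by
    simp
  refine le_trans ?_ (by exact_mod_cast h1 : (good.card : ℝ) ≤ (iso δ r z (rep e c u z) : ℝ))
  rw [h2]
  refine Finset.sum_le_sum fun q _ => ?_
  have hnn : ∀ q' ∈ univ.erase q, (0 : ℝ) ≤ (if z (e.symm (q, c q)) = false then (1 : ℝ) else 0) *
        (if u q = true then (1 : ℝ) else 0) *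
        ((if z (e.symm (q', c q')) = true then (1 : ℝ) else 0) *
        (if u q' = false then (1 : ℝ) else 0)) *
        (if δ (e.symm (q, c q)) (e.symm (q', c q')) < r then (1 : ℝ) else 0) := by
    intro q' _
    split_ifs <;> simp
  by_cases hg : q ∈ good
  · rw [if_pos hg]
    have h3 := Finset.sum_nonneg hnn
    have h4 : (if z (e.symm (q, c q)) = false then (1 : ℝ) else 0) *
        (if u q = true then (1 : ℝ) else 0) ≤ 1 := by
      split_ifs <;> simp
    linarith
  · rw [if_neg hg]
    by_cases hz : z (e.symm (q, c q)) = false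
    · by_cases hu : u q = true
      · -- a witness
        have hw : ∃ q', z (e.symm (q', c q')) = true ∧ u q' = false ∧
            δ (e.symm (q, c q)) (e.symm (q', c q')) < r := by
          by_contra hcon
          apply hg
          simp only [hgood, Finset.mem_filter, Finset.mem_univ, true_and]
          refine ⟨hz, hu, fun q' h5 h6 => ?_⟩
          by_contra h7
          exact hcon ⟨q', h5, h6, not_le.1 h7⟩
        obtain ⟨q', h5, h6, h7⟩ := hw
        have hne : q' ≠ q := by
          rintro rfl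
          rw [hz] at h5
          exact absurd h5 (by simp)
        have h8 := Finset.single_le_sum hnn (Finset.mem_erase.2 ⟨hne, Finset.mem_univ q'⟩)
        rw [if_pos hz, if_pos hu, if_pos h5, if_pos h6, if_pos h7] at h8
        rw [if_pos hz, if_pos hu]
        rw [if_pos hz, if_pos hu] at *
        linarith
      · simp [hu]
    · simp [hz]

open scoped Classical in
private theorem rndi_c (e : G ≃ Fin K × Fin m) (δ : G → G → ℝ) (r : ℝ) (c : Fin K → Fin m) :
    ∑ u : Fin K → Bool, ∑ z : G → Bool,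
      ∑ q : Fin K, ((if z (e.symm (q, c q)) = false then (1 : ℝ) else 0) *
      (if u q = true then (1 : ℝ) else 0) -
      ∑ q' ∈ univ.erase q, (if z (e.symm (q, c q)) = false then (1 : ℝ) else 0) *
        (if u q = true then (1 : ℝ) else 0) *
        ((if z (e.symm (q', c q')) = true then (1 : ℝ) else 0) *
        (if u q' = false then (1 : ℝ) else 0)) *
        (if δ (e.symm (q, c q)) (e.symm (q', c q')) < r then (1 : ℝ) else 0)) =
    ∑ q : Fin K, (1 / 4 * (2 ^ K * 2 ^ Fintype.card G) - ∑ q' ∈ univ.erase q,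
      1 / 16 * (2 ^ K * 2 ^ Fintype.card G) *
        (if δ (e.symm (q, c q)) (e.symm (q', c q')) < r then (1 : ℝ) else 0)) := by
  have hprod : ∀ (f : (G → Bool) → ℝ) (g : (Fin K → Bool) → ℝ),
      ∑ u : Fin K → Bool, ∑ z : G → Bool, f z * g u = (∑ z, f z) * ∑ u, g u := by
    intro f g
    rw [Finset.mul_sum]
    exact Finset.sum_congr rfl fun u _ => by rw [Finset.sum_mul]
  have hsw : ∀ F : (Fin K → Bool) → (G → Bool) → Fin K → ℝ,
      ∑ u, ∑ z, ∑ q, F u z q = ∑ q, ∑ u, ∑ z, F u z q := by
    intro F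
    calc ∑ u, ∑ z, ∑ q, F u z q = ∑ u, ∑ q, ∑ z, F u z q :=
          Finset.sum_congr rfl fun u _ => Finset.sum_comm
      _ = ∑ q, ∑ u, ∑ z, F u z q := Finset.sum_comm
  rw [hsw]
  refine Finset.sum_congr rfl fun q _ => ?_
  simp only [Finset.sum_sub_distrib]
  congr 1
  · rw [hprod (fun z => if z (e.symm (q, c q)) = false then (1 : ℝ) else 0)
      (fun u => if u q = true then (1 : ℝ) else 0), rndi_one, rndi_one, Fintype.card_fin]
    ring
  · have hsw2 : ∀ F : (Fin K → Bool) → (G → Bool) → Fin K → ℝ,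
        ∑ u, ∑ z, ∑ q' ∈ univ.erase q, F u z q' = ∑ q' ∈ univ.erase q, ∑ u, ∑ z, F u z q' := by
      intro F
      calc ∑ u, ∑ z, ∑ q' ∈ univ.erase q, F u z q'
          = ∑ u, ∑ q' ∈ univ.erase q, ∑ z, F u z q' :=
            Finset.sum_congr rfl fun u _ => Finset.sum_comm
        _ = _ := Finset.sum_comm
    rw [hsw2]
    refine Finset.sum_congr rfl fun q' hq' => ?_
    have hne : q ≠ q' := Ne.symm (Finset.ne_of_mem_erase hq')
    have hne2 : e.symm (q, c q) ≠ e.symm (q', c q') := by
      intro h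
      exact hne (Prod.ext_iff.1 (e.symm.injective h)).1
    set D : ℝ := (if δ (e.symm (q, c q)) (e.symm (q', c q')) < r then (1 : ℝ) else 0) with hD
    have h1 : ∀ (u : Fin K → Bool) (z : G → Bool),
        (if z (e.symm (q, c q)) = false then (1 : ℝ) else 0) *
        (if u q = true then (1 : ℝ) else 0) *
        ((if z (e.symm (q', c q')) = true then (1 : ℝ) else 0) *
        (if u q' = false then (1 : ℝ) else 0)) * D =
        ((if z (e.symm (q, c q)) = false then (1 : ℝ) else 0) *
          (if z (e.symm (q', c q')) = true then (1 : ℝ) else 0)) *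
        ((if u q = true then (1 : ℝ) else 0) * (if u q' = false then (1 : ℝ) else 0) * D) := by
      intro u z
      ring
    simp only [h1]
    rw [hprod (fun z => (if z (e.symm (q, c q)) = false then (1 : ℝ) else 0) *
          (if z (e.symm (q', c q')) = true then (1 : ℝ) else 0))
        (fun u => (if u q = true then (1 : ℝ) else 0) * (if u q' = false then (1 : ℝ) else 0) * D),
      rndi_two hne2, ← Finset.sum_mul, rndi_two hne, Fintype.card_fin]
    ring

omit [DecidableEq G] in
open scoped Classical in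
private theorem rndi_D (hm : 1 ≤ m) (e : G ≃ Fin K × Fin m) (δ : G → G → ℝ) (r : ℝ)
    (hB : ∀ x, 2 * ((univ.filter fun y => δ x y < r).card : ℝ) ≤ m) (q : Fin K) :
    ∑ c : Fin K → Fin m, ∑ q' ∈ univ.erase q,
      (if δ (e.symm (q, c q)) (e.symm (q', c q')) < r then (1 : ℝ) else 0) ≤ (m : ℝ) ^ K / 2 := by
  have hm0 : (0 : ℝ) < m := by
    have : 0 < m := hm
    exact_mod_cast this
  rw [Finset.sum_comm]
  have h1 : ∀ q' ∈ univ.erase q, (m : ℝ) * ∑ c : Fin K → Fin m,
      (if δ (e.symm (q, c q)) (e.symm (q', c q')) < r then (1 : ℝ) else 0) =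
      ∑ c : Fin K → Fin m, ∑ p : Fin m,
        (if δ (e.symm (q, c q)) (e.symm (q', p)) < r then (1 : ℝ) else 0) := by
    intro q' hq'
    have hne : q ≠ q' := Ne.symm (Finset.ne_of_mem_erase hq')
    have h := rndi_upd q' (fun c : Fin K → Fin m =>
      if δ (e.symm (q, c q)) (e.symm (q', c q')) < r then (1 : ℝ) else 0)
    simp only [Function.update_self, Function.update_of_ne hne, Fintype.card_fin] at h
    exact h.symm
  have h2 : (m : ℝ) * ∑ q' ∈ univ.erase q, ∑ c : Fin K → Fin m,
      (if δ (e.symm (q, c q)) (e.symm (q', c q')) < r then (1 : ℝ) else 0) ≤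
      (m : ℝ) * ((m : ℝ) ^ K / 2) := by
    rw [Finset.mul_sum, Finset.sum_congr rfl h1, Finset.sum_comm]
    have h3 : ∀ c : Fin K → Fin m, ∑ q' ∈ univ.erase q, ∑ p : Fin m,
        (if δ (e.symm (q, c q)) (e.symm (q', p)) < r then (1 : ℝ) else 0) ≤ (m : ℝ) / 2 := by
      intro c
      have h4 : ∑ q' ∈ univ.erase q, ∑ p : Fin m,
          (if δ (e.symm (q, c q)) (e.symm (q', p)) < r then (1 : ℝ) else 0) ≤
          ∑ q' : Fin K, ∑ p : Fin m,
          (if δ (e.symm (q, c q)) (e.symm (q', p)) < r then (1 : ℝ) else 0) :=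
        Finset.sum_le_sum_of_subset_of_nonneg (Finset.erase_subset _ _) fun q' _ _ =>
          Finset.sum_nonneg fun p _ => by split_ifs <;> norm_num
      have h5 : ∑ q' : Fin K, ∑ p : Fin m,
          (if δ (e.symm (q, c q)) (e.symm (q', p)) < r then (1 : ℝ) else 0) =
          ((univ.filter fun y => δ (e.symm (q, c q)) y < r).card : ℝ) := by
        rw [← Fintype.sum_prod_type (f := fun x : Fin K × Fin m =>
          if δ (e.symm (q, c q)) (e.symm x) < r then (1 : ℝ) else 0),
          Equiv.sum_comp e.symm (fun y => if δ (e.symm (q, c q)) y < r then (1 : ℝ) else 0)]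
        simp
      have h6 := hB (e.symm (q, c q))
      linarith
    refine (Finset.sum_le_sum fun c _ => h3 c).trans ?_
    rw [Finset.sum_const, Finset.card_univ, Fintype.card_fun, Fintype.card_fin, Fintype.card_fin,
      nsmul_eq_mul]
    push_cast
    apply le_of_eq
    ring
  exact le_of_mul_le_mul_left h2 hm0

open scoped Classical in
theorem rnd_iso (hm : 1 ≤ m) (e : G ≃ Fin K × Fin m) (δ : G → G → ℝ) (r : ℝ)
    (hB : ∀ x, 2 * ((univ.filter fun y => δ x y < r).card : ℝ) ≤ m) :
    7 / 32 * K * ((m : ℝ) ^ K * 2 ^ K * 2 ^ Fintype.card G) ≤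
      ∑ c : Fin K → Fin m, ∑ u : Fin K → Bool, ∑ z : G → Bool, (iso δ r z (rep e c u z) : ℝ) := by
  refine le_trans ?_ (Finset.sum_le_sum fun c _ => Finset.sum_le_sum fun u _ =>
    Finset.sum_le_sum fun z _ => rndi_pt e δ r c u z)
  rw [Finset.sum_congr rfl fun c _ => rndi_c e δ r c]
  simp only [Finset.sum_sub_distrib]
  have h1 : ∑ _c : Fin K → Fin m, ∑ _q : Fin K, 1 / 4 * ((2 : ℝ) ^ K * 2 ^ Fintype.card G) =
      1 / 4 * K * ((m : ℝ) ^ K * 2 ^ K * 2 ^ Fintype.card G) := by
    simp only [Finset.sum_const, Finset.card_univ, Fintype.card_fun, Fintype.card_fin,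
      nsmul_eq_mul]
    push_cast
    ring
  have h2 : ∑ c : Fin K → Fin m, ∑ q : Fin K, ∑ q' ∈ univ.erase q,
      1 / 16 * ((2 : ℝ) ^ K * 2 ^ Fintype.card G) *
        (if δ (e.symm (q, c q)) (e.symm (q', c q')) < r then (1 : ℝ) else 0) ≤
      1 / 32 * K * ((m : ℝ) ^ K * 2 ^ K * 2 ^ Fintype.card G) := by
    rw [Finset.sum_comm]
    have h3 : ∀ q : Fin K, ∑ c : Fin K → Fin m, ∑ q' ∈ univ.erase q,
        1 / 16 * ((2 : ℝ) ^ K * 2 ^ Fintype.card G) *
        (if δ (e.symm (q, c q)) (e.symm (q', c q')) < r then (1 : ℝ) else 0) ≤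
        1 / 16 * ((2 : ℝ) ^ K * 2 ^ Fintype.card G) * ((m : ℝ) ^ K / 2) := by
      intro q
      simp only [← Finset.mul_sum]
      exact mul_le_mul_of_nonneg_left (rndi_D hm e δ r hB q) (by positivity)
    refine (Finset.sum_le_sum fun q _ => h3 q).trans ?_
    rw [Finset.sum_const, Finset.card_univ, Fintype.card_fin, nsmul_eq_mul]
    apply le_of_eq
    ring
  rw [h1]
  linarith

/-- A bit as a number. -/
private def rndd_b (v : Bool) : ℝ := if v = true then 1 else 0

omit [DecidableEq G] in
private theorem rndd_ones (z : G → Bool) : (ones z : ℝ) = ∑ x, rndd_b (z x) := by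
  unfold ones rndd_b
  simp

omit [DecidableEq G] in
private theorem rndd_diff (e : G ≃ Fin K × Fin m) (c : Fin K → Fin m) (u : Fin K → Bool)
    (z : G → Bool) : (ones (rep e c u z) : ℝ) - ones z =
      ∑ q, (rndd_b (u q) - rndd_b (z (e.symm (q, c q)))) := by
  rw [rndd_ones, rndd_ones, ← Finset.sum_sub_distrib,
    ← Equiv.sum_comp e.symm (fun x => rndd_b (rep e c u z x) - rndd_b (z x)),
    Fintype.sum_prod_type]
  refine Finset.sum_congr rfl fun q _ => ?_
  rw [Finset.sum_eq_single (c q)]
  · simp [rep]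
  · intro p _ hp
    simp [rep, Ne.symm hp]
  · intro h
    exact absurd (Finset.mem_univ _) h

private theorem rndd_sq (e : G ≃ Fin K × Fin m) (c : Fin K → Fin m) :
    ∑ u : Fin K → Bool, ∑ z : G → Bool,
      (∑ q, (rndd_b (u q) - rndd_b (z (e.symm (q, c q))))) ^ 2 =
      1 / 2 * K * (2 ^ K * 2 ^ Fintype.card G) := by
  have hprod : ∀ (f : (G → Bool) → ℝ) (g : (Fin K → Bool) → ℝ),
      ∑ u : Fin K → Bool, ∑ z : G → Bool, g u * f z = (∑ u, g u) * ∑ z, f z := by
    intro f g
    rw [Finset.sum_mul]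
    exact Finset.sum_congr rfl fun u _ => by rw [Finset.mul_sum]
  have hc1 : ∑ _u : Fin K → Bool, (1 : ℝ) = 2 ^ K := by
    simp
  have hc2 : ∑ _z : G → Bool, (1 : ℝ) = 2 ^ Fintype.card G := by
    simp
  have hu : ∀ q, ∑ u : Fin K → Bool, rndd_b (u q) = 1 / 2 * 2 ^ K := by
    intro q
    have := rndi_one q true
    rwa [Fintype.card_fin] at this
  have hz : ∀ q, ∑ z : G → Bool, rndd_b (z (e.symm (q, c q))) = 1 / 2 * 2 ^ Fintype.card G :=
    fun q => rndi_one _ true
  have hpair : ∀ q q' : Fin K, ∑ u : Fin K → Bool, ∑ z : G → Bool,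
      (rndd_b (u q) - rndd_b (z (e.symm (q, c q)))) *
        (rndd_b (u q') - rndd_b (z (e.symm (q', c q')))) =
      if q = q' then 1 / 2 * ((2 : ℝ) ^ K * 2 ^ Fintype.card G) else 0 := by
    intro q q'
    have hexp : ∀ (u : Fin K → Bool) (z : G → Bool),
        (rndd_b (u q) - rndd_b (z (e.symm (q, c q)))) *
          (rndd_b (u q') - rndd_b (z (e.symm (q', c q')))) =
        (rndd_b (u q) * rndd_b (u q')) * 1 - rndd_b (u q) * rndd_b (z (e.symm (q', c q'))) -
          rndd_b (u q') * rndd_b (z (e.symm (q, c q))) +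
          1 * (rndd_b (z (e.symm (q, c q))) * rndd_b (z (e.symm (q', c q')))) := by
      intro u z
      ring
    simp only [hexp, Finset.sum_add_distrib, Finset.sum_sub_distrib]
    rw [hprod (fun _ => 1) (fun u => rndd_b (u q) * rndd_b (u q')),
      hprod (fun z => rndd_b (z (e.symm (q', c q')))) (fun u => rndd_b (u q)),
      hprod (fun z => rndd_b (z (e.symm (q, c q)))) (fun u => rndd_b (u q')),
      hprod (fun z => rndd_b (z (e.symm (q, c q))) * rndd_b (z (e.symm (q', c q'))))
        (fun _ => 1), hc1, hc2, hu, hu, hz, hz]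
    by_cases hqq : q = q'
    · subst hqq
      have hsq : ∀ v : Bool, rndd_b v * rndd_b v = rndd_b v := by
        intro v
        unfold rndd_b
        split_ifs <;> simp
      simp only [hsq]
      rw [hu, hz, if_pos trivial]
      ring
    · have hne2 : e.symm (q, c q) ≠ e.symm (q', c q') := by
        intro h
        exact hqq (Prod.ext_iff.1 (e.symm.injective h)).1
      have h1 : ∑ u : Fin K → Bool, rndd_b (u q) * rndd_b (u q') = 1 / 4 * 2 ^ K := by
        have := rndi_two hqq true true
        rwa [Fintype.card_fin] at this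
      have h2 : ∑ z : G → Bool, rndd_b (z (e.symm (q, c q))) *
          rndd_b (z (e.symm (q', c q'))) = 1 / 4 * 2 ^ Fintype.card G := rndi_two hne2 true true
      rw [h1, h2, if_neg hqq]
      ring
  have h3 : ∀ (u : Fin K → Bool) (z : G → Bool),
      (∑ q, (rndd_b (u q) - rndd_b (z (e.symm (q, c q))))) ^ 2 =
      ∑ q, ∑ q', (rndd_b (u q) - rndd_b (z (e.symm (q, c q)))) *
        (rndd_b (u q') - rndd_b (z (e.symm (q', c q')))) := by
    intro u z
    rw [sq, Finset.sum_mul_sum]
  simp only [h3]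
  have hsw : ∀ F : (Fin K → Bool) → (G → Bool) → Fin K → Fin K → ℝ,
      ∑ u, ∑ z, ∑ q, ∑ q', F u z q q' = ∑ q, ∑ q', ∑ u, ∑ z, F u z q q' := by
    intro F
    calc ∑ u, ∑ z, ∑ q, ∑ q', F u z q q' = ∑ u, ∑ q, ∑ z, ∑ q', F u z q q' :=
          Finset.sum_congr rfl fun u _ => Finset.sum_comm
      _ = ∑ q, ∑ u, ∑ z, ∑ q', F u z q q' := Finset.sum_comm
      _ = ∑ q, ∑ u, ∑ q', ∑ z, F u z q q' :=
          Finset.sum_congr rfl fun q _ => Finset.sum_congr rfl fun u _ => Finset.sum_comm
      _ = _ := Finset.sum_congr rfl fun q _ => Finset.sum_comm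
  rw [hsw]
  simp only [hpair, Finset.sum_ite_eq, Finset.mem_univ, if_true, Finset.sum_const,
    Finset.card_univ, Fintype.card_fin, nsmul_eq_mul]
  ring

theorem rnd_dif (hK : 64 ≤ K) (e : G ≃ Fin K × Fin m) (c : Fin K → Fin m) :
    ∑ u : Fin K → Bool, ∑ z : G → Bool, max 0 ((ones (rep e c u z) : ℝ) - ones z) ≤
      3 / 32 * K * (2 ^ K * 2 ^ Fintype.card G) := by
  have hK' : (64 : ℝ) ≤ K := by exact_mod_cast hK
  have hK0 : (0 : ℝ) < K := by linarith
  have h1 : ∀ X : ℝ, max 0 X ≤ 8 / K * X ^ 2 + K / 32 := by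
    intro X
    have h2 : 8 / K * X ^ 2 + K / 32 - X = 8 / K * (X - K / 16) ^ 2 := by
      field_simp
      ring
    have h3 : 0 ≤ 8 / (K : ℝ) * (X - K / 16) ^ 2 := by positivity
    apply max_le
    · positivity
    · linarith
  calc ∑ u : Fin K → Bool, ∑ z : G → Bool, max 0 ((ones (rep e c u z) : ℝ) - ones z)
      ≤ ∑ u : Fin K → Bool, ∑ z : G → Bool, (8 / K *
        (∑ q, (rndd_b (u q) - rndd_b (z (e.symm (q, c q))))) ^ 2 + K / 32) := by
        refine Finset.sum_le_sum fun u _ => Finset.sum_le_sum fun z _ => ?_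
        rw [rndd_diff]
        exact h1 _
    _ = 8 / K * (1 / 2 * K * (2 ^ K * 2 ^ Fintype.card G)) +
        K / 32 * (2 ^ K * 2 ^ Fintype.card G) := by
        simp only [Finset.sum_add_distrib, ← Finset.mul_sum]
        rw [rndd_sq]
        simp only [Finset.sum_const, Finset.card_univ, Fintype.card_fun, Fintype.card_fin,
          Fintype.card_bool, nsmul_eq_mul]
        push_cast
        ring
    _ ≤ _ := by
        have h4 : (0 : ℝ) < 2 ^ K * 2 ^ Fintype.card G := by positivity
        have h5 : 8 / (K : ℝ) * (1 / 2 * K * (2 ^ K * 2 ^ Fintype.card G)) =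
            4 * (2 ^ K * 2 ^ Fintype.card G) := by
          field_simp
          ring
        rw [h5]
        nlinarith

open scoped Classical in
theorem rnd_low (hK : 64 ≤ K) (hm : 1 ≤ m) (e : G ≃ Fin K × Fin m) (δ : G → G → ℝ) (r : ℝ)
    (hB : ∀ x, 2 * ((univ.filter fun y => δ x y < r).card : ℝ) ≤ m) :
    (K : ℝ) / 8 * ((m : ℝ) ^ K * 2 ^ K * 2 ^ Fintype.card G) ≤
      ∑ c : Fin K → Fin m, ∑ u : Fin K → Bool, ∑ z : G → Bool,
        ((iso δ r z (rep e c u z) : ℝ) - max 0 ((ones (rep e c u z) : ℝ) - ones z)) := by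
  simp only [Finset.sum_sub_distrib]
  have h1 := rnd_iso (K := K) hm e δ r hB
  have h2 : ∑ c : Fin K → Fin m, ∑ u : Fin K → Bool, ∑ z : G → Bool,
      max 0 ((ones (rep e c u z) : ℝ) - ones z) ≤
        ∑ _c : Fin K → Fin m, 3 / 32 * K * ((2 : ℝ) ^ K * 2 ^ Fintype.card G) :=
    Finset.sum_le_sum fun c _ => rnd_dif hK e c
  rw [Finset.sum_const, Finset.card_univ, Fintype.card_fun, Fintype.card_fin, Fintype.card_fin,
    nsmul_eq_mul] at h2
  push_cast at h2
  nlinarith [h1, h2]

end Pool.Agent.Emd
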