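import Pool.Agent.Emd.Tal

/-!
MODULE sub (M). Resampling one bit per cell.

`e : G ≃ Fin K × Fin m` divides `G` in `K` cells with `m` elements; `c : Fin K → Fin m` chooses one
element `e.symm (q, c q)` in each cell, `rep e c u z` replaces the chosen bits of `z` by `u`.

Proof of `sub_ineq` (for a fixed `c`). For `w : G → Bool` apply `tal_ind` to `g_w u = g (rep e c u w)`:
`∑_u ∑_u' |g (rep u w) - g (rep u' w)| ≤ 2 · 2^K ∑_u √(hp g_w u)`. Here
`rep (update u q true) w = update (rep u w) (site q) true`, so
`hp g_w u = #{q | z (site q) = false ∧ g (update z (site q) true) ≠ g z}` with `z = rep u w`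
(`u q = z (site q)`, the squares are `0` or `1`). Sum over `w`: the map `(u', w) ↦ rep u' w` from
`(Fin K → Bool) × (G → Bool)` to `G → Bool` is `2^K` to `1` (`rep_sum`), and `rep u (rep u' w) = rep u w`.
So `2^K ∑_z ∑_u |g (rep u z) - g z| ≤ 2 · 2^K · 2^K ∑_z √(#..)`.
`rep_sum`: `∑_u ∑_w Φ (rep e c u w) = 2^K ∑_z Φ z`: for every `z` the pairs `(u, w)` with `rep u w = z` are
exactly: `u q = z (site q)` and `w = z` off the sites, arbitrary on the `K` sites. (E.g. the map
`(u, w) ↦ (w ∘ site, rep u w)` is a bijection, an involution.)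
-/

set_option autoImplicit false

namespace Pool.Agent.Emd

open Finset

variable {G : Type} [Fintype G] [DecidableEq G] {K m : ℕ}

/-- Replace the chosen bits. -/
def rep (e : G ≃ Fin K × Fin m) (c : Fin K → Fin m) (u : Fin K → Bool) (z : G → Bool) :
    G → Bool := fun x => if c (e x).1 = (e x).2 then u (e x).1 else z x

/-- The number of the cells whose chosen bit is `false` and pivotal. -/
noncomputable def npiv (e : G ≃ Fin K × Fin m) (c : Fin K → Fin m) (g : (G → Bool) → ℝ)
    (z : G → Bool) : ℕ :=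
  open scoped Classical in
  (univ.filter fun q : Fin K => z (e.symm (q, c q)) = false ∧
    g (Function.update z (e.symm (q, c q)) true) ≠ g z).card

omit [Fintype G] [DecidableEq G] in
private theorem sub_site (e : G ≃ Fin K × Fin m) (c : Fin K → Fin m) (u : Fin K → Bool)
    (z : G → Bool) (q : Fin K) : rep e c u z (e.symm (q, c q)) = u q := by
  simp [rep]

omit [Fintype G] [DecidableEq G] in
private theorem sub_rep_rep (e : G ≃ Fin K × Fin m) (c : Fin K → Fin m) (u u' : Fin K → Bool)
    (z : G → Bool) : rep e c u (rep e c u' z) = rep e c u z := by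
  funext x
  unfold rep
  split_ifs <;> rfl

omit [Fintype G] [DecidableEq G] in
private theorem sub_back (e : G ≃ Fin K × Fin m) (c : Fin K → Fin m) (u : Fin K → Bool)
    (w : G → Bool) : rep e c (fun q => w (e.symm (q, c q))) (rep e c u w) = w := by
  funext x
  unfold rep
  split_ifs with h
  · show w (e.symm ((e x).1, c (e x).1)) = w x
    rw [h, Prod.mk.eta, Equiv.symm_apply_apply]
  · rfl

/-- The involution `(u, w) ↦ (w ∘ site, rep u w)`. -/
private def sub_T (e : G ≃ Fin K × Fin m) (c : Fin K → Fin m) :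
    (Fin K → Bool) × (G → Bool) ≃ (Fin K → Bool) × (G → Bool) where
  toFun p := (fun q => p.2 (e.symm (q, c q)), rep e c p.1 p.2)
  invFun p := (fun q => p.2 (e.symm (q, c q)), rep e c p.1 p.2)
  left_inv p := by
    ext1
    · funext q; exact sub_site e c p.1 p.2 q
    · exact sub_back e c p.1 p.2
  right_inv p := by
    ext1
    · funext q; exact sub_site e c p.1 p.2 q
    · exact sub_back e c p.1 p.2

theorem rep_sum (e : G ≃ Fin K × Fin m) (c : Fin K → Fin m) (Φ : (G → Bool) → ℝ) :
    ∑ u : Fin K → Bool, ∑ w : G → Bool, Φ (rep e c u w) = 2 ^ K * ∑ z, Φ z := by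
  have h := (sub_T e c).sum_comp (fun p : (Fin K → Bool) × (G → Bool) => Φ p.2)
  rw [Fintype.sum_prod_type, Fintype.sum_prod_type] at h
  refine (Eq.trans ?_ h).trans ?_
  · rfl
  · simp

private theorem sub_hp (e : G ≃ Fin K × Fin m) (c : Fin K → Fin m) (g : (G → Bool) → ℝ)
    (hg : ∀ z, g z = 0 ∨ g z = 1) (w : G → Bool) (u : Fin K → Bool) :
    hp (fun v => g (rep e c v w)) u = (npiv e c g (rep e c u w) : ℝ) := by
  classical
  unfold hp npiv
  rw [Finset.card_filter, Nat.cast_sum]
  refine Finset.sum_congr rfl fun q _ => ?_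
  have hup : rep e c (Function.update u q true) w =
      Function.update (rep e c u w) (e.symm (q, c q)) true := by
    funext x
    by_cases hx : x = e.symm (q, c q)
    · subst hx
      rw [sub_site, Function.update_self, Function.update_self]
    · rw [Function.update_of_ne hx]
      unfold rep
      split_ifs with h
      · rw [Function.update_of_ne]
        intro h'
        apply hx
        rw [← h', h, Prod.mk.eta, Equiv.symm_apply_apply]
      · rfl
  rw [sub_site]
  beta_reduce
  rw [hup]
  rcases hg (Function.update (rep e c u w) (e.symm (q, c q)) true) with h1 | h1 <;>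
  rcases hg (rep e c u w) with h2 | h2 <;>
  by_cases hu : u q = false <;> simp [h1, h2, hu]

theorem sub_ineq (e : G ≃ Fin K × Fin m) (c : Fin K → Fin m) (g : (G → Bool) → ℝ)
    (hg : ∀ z, g z = 0 ∨ g z = 1) :
    ∑ u : Fin K → Bool, ∑ z : G → Bool, |g (rep e c u z) - g z| ≤
      2 * 2 ^ K * ∑ z : G → Bool, Real.sqrt (npiv e c g z) := by
  have hN : (0 : ℝ) < 2 ^ K := by positivity
  have h1 : ∀ w : G → Bool,
      ∑ u : Fin K → Bool, ∑ u' : Fin K → Bool, |g (rep e c u w) - g (rep e c u' w)| ≤
      2 * 2 ^ K * ∑ u : Fin K → Bool, Real.sqrt (npiv e c g (rep e c u w)) := by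
    intro w
    have := tal_ind (fun v => g (rep e c v w)) (fun u => hg _)
    simpa only [sub_hp e c g hg w] using this
  have h2 := Finset.sum_le_sum (fun w (_ : w ∈ (Finset.univ : Finset (G → Bool))) => h1 w)
  rw [← Finset.mul_sum] at h2
  have eR : ∑ w : G → Bool, ∑ u : Fin K → Bool, Real.sqrt (npiv e c g (rep e c u w)) =
      2 ^ K * ∑ z : G → Bool, Real.sqrt (npiv e c g z) := by
    rw [Finset.sum_comm]
    exact rep_sum e c (fun z => Real.sqrt (npiv e c g z))
  have eL : ∑ w : G → Bool, ∑ u : Fin K → Bool, ∑ u' : Fin K → Bool,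
      |g (rep e c u w) - g (rep e c u' w)| =
      2 ^ K * ∑ u : Fin K → Bool, ∑ z : G → Bool, |g (rep e c u z) - g z| := by
    have h3 := rep_sum e c (fun z => ∑ u : Fin K → Bool, |g (rep e c u z) - g z|)
    simp only [sub_rep_rep] at h3
    rw [Finset.sum_comm (s := (Finset.univ : Finset (Fin K → Bool)))
      (t := (Finset.univ : Finset (G → Bool))) (f := fun u z => |g (rep e c u z) - g z|), ← h3,
      Finset.sum_comm (s := (Finset.univ : Finset (Fin K → Bool)))
      (t := (Finset.univ : Finset (G → Bool)))]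
    exact Finset.sum_congr rfl fun w _ => Finset.sum_comm
  rw [eR, eL] at h2
  have h4 : 2 ^ K * (∑ u : Fin K → Bool, ∑ z : G → Bool, |g (rep e c u z) - g z|) ≤
      2 ^ K * (2 * 2 ^ K * ∑ z : G → Bool, Real.sqrt (npiv e c g z)) := by
    calc _ ≤ _ := h2
      _ = _ := by ring
  exact le_of_mul_le_mul_left h4 hN

end Pool.Agent.Emd
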