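import Mathlib

/-!
MODULE tal (M). The one-sided inequality of Bobkov and Talagrand on the cube `{0,1}^K`.

Proof of `tal`. Put `J(x) = x (1 - x)`.
(1) Two-point inequality `tal_two`: for `a, b ∈ [0, 1]`, `m = (a + b) / 2`:
`J(m) ≤ (√(J(a)^2 + (a - b)^2) + J(b)) / 2`. Indeed `J(m) = (J(a) + J(b)) / 2 + (a - b)^2 / 4`, and with
`R = √(J(a)^2 + δ^2)`, `δ = a - b`: `R - J(a) = δ^2 / (R + J(a)) ≥ δ^2 / 2` because
`J(a) ≤ 1/4`, `δ^2 ≤ 1`, so `R ≤ √(17/16) ≤ 5/4`, `R + J(a) ≤ 3/2 ≤ 2`.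
(Or: it is enough that `(J(a) + δ^2/2)^2 ≤ J(a)^2 + δ^2`, i.e. `J(a) δ^2 + δ^4/4 ≤ δ^2`.)
(2) Induction on `K`. For `g : {0,1}^(K+1) → [0,1]` let `g_0 u = g (cons false u)`,
`g_1 u = g (cons true u)` and `E` the mean over `{0,1}^K`. Then
`hp g (cons false u) = hp g_0 u + (g_1 u - g_0 u)^2`, `hp g (cons true u) = hp g_1 u`, and
`2 · (right side for g) = E √(J(g_0)^2 + hp g_0 + (g_0 - g_1)^2) + E √(J(g_1)^2 + hp g_1)`
`≥ √((E √(J(g_0)^2 + hp g_0))^2 + (E |g_0 - g_1|)^2) + E √(J(g_1)^2 + hp g_1)` (Minkowski: `tal_mink`)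
`≥ √(J(E g_0)^2 + (E g_0 - E g_1)^2) + J(E g_1) ≥ 2 J((E g_0 + E g_1) / 2)` (induction hypothesis, (1)).
`K = 0`: `E g (1 - E g) = g u (1 - g u) ≤ √((g u (1 - g u))^2 + 0)`.
`tal_mink` : `√((∑ A)^2 + (∑ B)^2) ≤ ∑ √(A^2 + B^2)` for `A, B ≥ 0` (triangle inequality in `ℝ^2`, e.g. the
norm of the complex number `∑ (A + i B)`, or induction).
`tal_ind`: for `g` with values `0`, `1` the number of pairs with `g u ≠ g u'` is `2 · 4^K · E g (1 - E g)`, and
`J(g u) = 0`.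
-/

set_option autoImplicit false

namespace Pool.Agent.Emd

open Finset

/-- The squares of the changes of `g` at the coordinates with value `false`. -/
noncomputable def hp {K : ℕ} (g : (Fin K → Bool) → ℝ) (u : Fin K → Bool) : ℝ :=
  ∑ q, if u q = false then (g (Function.update u q true) - g u) ^ 2 else 0

private theorem tal_mink {ι : Type} (s : Finset ι) (A B : ι → ℝ) :
    Real.sqrt ((∑ i ∈ s, A i) ^ 2 + (∑ i ∈ s, B i) ^ 2) ≤
      ∑ i ∈ s, Real.sqrt (A i ^ 2 + B i ^ 2) := by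
  have h : ‖∑ i ∈ s, ((A i : ℂ) + (B i : ℂ) * Complex.I)‖ ≤
      ∑ i ∈ s, ‖((A i : ℂ) + (B i : ℂ) * Complex.I)‖ := norm_sum_le _ _
  have e : ∑ i ∈ s, ((A i : ℂ) + (B i : ℂ) * Complex.I) =
      ((∑ i ∈ s, A i : ℝ) : ℂ) + ((∑ i ∈ s, B i : ℝ) : ℂ) * Complex.I := by
    push_cast
    rw [Finset.sum_add_distrib, Finset.sum_mul]
  rw [e, Complex.norm_add_mul_I] at h
  simpa only [Complex.norm_add_mul_I] using h

private theorem tal_two (a b : ℝ) (ha0 : 0 ≤ a) (ha1 : a ≤ 1) (hb0 : 0 ≤ b) (hb1 : b ≤ 1) :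
    2 * (((a + b) / 2) * (1 - (a + b) / 2)) ≤
      Real.sqrt ((a * (1 - a)) ^ 2 + (a - b) ^ 2) + b * (1 - b) := by
  have h : (a * (1 - a) + (a - b) ^ 2 / 2) ^ 2 ≤ (a * (1 - a)) ^ 2 + (a - b) ^ 2 := by
    have hJ : a * (1 - a) ≤ 1 / 4 := by nlinarith [sq_nonneg (a - 1 / 2)]
    have hd : (a - b) ^ 2 ≤ 1 := by
      have h1 : a - b ≤ 1 := by linarith
      have h2 : -1 ≤ a - b := by linarith
      nlinarith
    have hd0 : 0 ≤ (a - b) ^ 2 := sq_nonneg _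
    nlinarith [mul_le_mul_of_nonneg_right hJ hd0, mul_le_mul_of_nonneg_right hd hd0]
  have h2 := le_trans (le_abs_self _) (Real.abs_le_sqrt h)
  nlinarith

private theorem tal_hp_nonneg {K : ℕ} (g : (Fin K → Bool) → ℝ) (u : Fin K → Bool) :
    0 ≤ hp g u := by
  unfold hp
  refine Finset.sum_nonneg fun q _ => ?_
  split_ifs
  · exact sq_nonneg _
  · exact le_rfl

private theorem tal_sum_cons {K : ℕ} (f : (Fin (K + 1) → Bool) → ℝ) :
    ∑ u, f u = (∑ u : Fin K → Bool, f (Fin.cons false u : Fin (K + 1) → Bool)) +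
      ∑ u : Fin K → Bool, f (Fin.cons true u : Fin (K + 1) → Bool) := by
  have h := (Fin.consEquiv (fun _ : Fin (K + 1) => Bool)).sum_comp f
  rw [← h, Fintype.sum_prod_type, Fintype.sum_bool, add_comm]
  rfl

private theorem tal_hp_false {K : ℕ} (g : (Fin (K + 1) → Bool) → ℝ) (u : Fin K → Bool) :
    hp g (Fin.cons false u : Fin (K + 1) → Bool) =
      hp (fun v : Fin K → Bool => g (Fin.cons false v : Fin (K + 1) → Bool)) u +
      (g (Fin.cons true u : Fin (K + 1) → Bool) -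
        g (Fin.cons false u : Fin (K + 1) → Bool)) ^ 2 := by
  unfold hp
  rw [Fin.sum_univ_succ]
  simp only [Fin.cons_zero, Fin.update_cons_zero, if_true, Fin.cons_succ, Fin.cons_update]
  ring

private theorem tal_hp_true {K : ℕ} (g : (Fin (K + 1) → Bool) → ℝ) (u : Fin K → Bool) :
    hp g (Fin.cons true u : Fin (K + 1) → Bool) =
      hp (fun v : Fin K → Bool => g (Fin.cons true v : Fin (K + 1) → Bool)) u := by
  unfold hp
  rw [Fin.sum_univ_succ]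
  simp only [Fin.cons_zero, Fin.cons_succ, Fin.cons_update]
  simp

theorem tal {K : ℕ} (g : (Fin K → Bool) → ℝ) (h0 : ∀ u, 0 ≤ g u) (h1 : ∀ u, g u ≤ 1) :
    ((∑ u, g u) / 2 ^ K) * (1 - (∑ u, g u) / 2 ^ K) ≤
      (∑ u, Real.sqrt ((g u * (1 - g u)) ^ 2 + hp g u)) / 2 ^ K := by
  induction K with
  | zero =>
    have hu : (Finset.univ : Finset (Fin 0 → Bool)) = {default} := by
      ext x
      simp only [Finset.mem_univ, Finset.mem_singleton, true_iff]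
      exact Subsingleton.elim _ _
    rw [hu]
    simp only [Finset.sum_singleton, pow_zero, div_one]
    refine le_trans (le_abs_self _) (Real.abs_le_sqrt ?_)
    linarith [tal_hp_nonneg g default]
  | succ K ih =>
    set g0 : (Fin K → Bool) → ℝ := fun v => g (Fin.cons false v : Fin (K + 1) → Bool) with hg0
    set g1 : (Fin K → Bool) → ℝ := fun v => g (Fin.cons true v : Fin (K + 1) → Bool) with hg1
    have i0 := ih g0 (fun u => h0 _) (fun u => h1 _)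
    have i1 := ih g1 (fun u => h0 _) (fun u => h1 _)
    have hN : (0 : ℝ) < 2 ^ K := by positivity
    have hcard : (∑ _u : Fin K → Bool, (1 : ℝ)) = 2 ^ K := by simp
    rw [tal_sum_cons g, tal_sum_cons]
    simp only [tal_hp_false, tal_hp_true]
    rw [← hg0, ← hg1]
    change ((∑ u, g0 u + ∑ u, g1 u) / 2 ^ (K + 1)) * (1 - (∑ u, g0 u + ∑ u, g1 u) / 2 ^ (K + 1)) ≤
      (∑ u, Real.sqrt ((g0 u * (1 - g0 u)) ^ 2 + (hp g0 u + (g1 u - g0 u) ^ 2)) +
        ∑ u, Real.sqrt ((g1 u * (1 - g1 u)) ^ 2 + hp g1 u)) / 2 ^ (K + 1)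
    set a : ℝ := (∑ u, g0 u) / 2 ^ K with ha
    set b : ℝ := (∑ u, g1 u) / 2 ^ K with hb
    have ea : ∑ u, g0 u = 2 ^ K * a := by rw [ha]; field_simp
    have eb : ∑ u, g1 u = 2 ^ K * b := by rw [hb]; field_simp
    have ha0 : 0 ≤ a := div_nonneg (Finset.sum_nonneg fun u _ => h0 _) hN.le
    have hb0 : 0 ≤ b := div_nonneg (Finset.sum_nonneg fun u _ => h0 _) hN.le
    have ha1 : a ≤ 1 := by
      rw [ha, div_le_one hN, ← hcard]
      exact Finset.sum_le_sum fun u _ => h1 _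
    have hb1 : b ≤ 1 := by
      rw [hb, div_le_one hN, ← hcard]
      exact Finset.sum_le_sum fun u _ => h1 _
    have key : Real.sqrt ((a * (1 - a)) ^ 2 + (a - b) ^ 2) ≤
        (∑ u, Real.sqrt ((g0 u * (1 - g0 u)) ^ 2 + (hp g0 u + (g1 u - g0 u) ^ 2))) / 2 ^ K := by
      have m := tal_mink (Finset.univ : Finset (Fin K → Bool))
        (fun u => Real.sqrt ((g0 u * (1 - g0 u)) ^ 2 + hp g0 u)) (fun u => g1 u - g0 u)
      have e1 : ∀ u, Real.sqrt ((Real.sqrt ((g0 u * (1 - g0 u)) ^ 2 + hp g0 u)) ^ 2 +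
          (g1 u - g0 u) ^ 2) =
          Real.sqrt ((g0 u * (1 - g0 u)) ^ 2 + (hp g0 u + (g1 u - g0 u) ^ 2)) := by
        intro u
        rw [Real.sq_sqrt (add_nonneg (sq_nonneg _) (tal_hp_nonneg _ _)), add_assoc]
      simp only [e1] at m
      rw [le_div_iff₀ hN]
      refine le_trans ?_ m
      have e2 : Real.sqrt ((a * (1 - a)) ^ 2 + (a - b) ^ 2) * 2 ^ K =
          Real.sqrt ((2 ^ K * (a * (1 - a))) ^ 2 + (2 ^ K * (a - b)) ^ 2) := by
        rw [show (2 ^ K * (a * (1 - a))) ^ 2 + (2 ^ K * (a - b)) ^ 2 =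
          ((a * (1 - a)) ^ 2 + (a - b) ^ 2) * (2 ^ K) ^ 2 by ring,
          Real.sqrt_mul (by positivity), Real.sqrt_sq hN.le]
      rw [e2]
      apply Real.sqrt_le_sqrt
      have hJ0 : 0 ≤ a * (1 - a) := mul_nonneg ha0 (by linarith)
      have p1 : 2 ^ K * (a * (1 - a)) ≤
          ∑ u, Real.sqrt ((g0 u * (1 - g0 u)) ^ 2 + hp g0 u) := by
        have := (le_div_iff₀ hN).1 i0
        linarith [mul_comm ((2 : ℝ) ^ K) (a * (1 - a))]
      have p2 : (∑ u, (g1 u - g0 u)) = - (2 ^ K * (a - b)) := by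
        rw [Finset.sum_sub_distrib, ea, eb]; ring
      rw [p2]
      have p3 : (2 ^ K * (a * (1 - a))) ^ 2 ≤
          (∑ u, Real.sqrt ((g0 u * (1 - g0 u)) ^ 2 + hp g0 u)) ^ 2 :=
        pow_le_pow_left₀ (mul_nonneg hN.le hJ0) p1 2
      nlinarith
    have two := tal_two a b ha0 ha1 hb0 hb1
    have e3 : (∑ u, g0 u + ∑ u, g1 u) / 2 ^ (K + 1) = (a + b) / 2 := by
      rw [ea, eb, pow_succ]; field_simp
    rw [e3]
    have e4 : ∀ X Y : ℝ, (X + Y) / 2 ^ (K + 1) = (X / 2 ^ K + Y / 2 ^ K) / 2 := by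
      intro X Y; rw [pow_succ]; field_simp
    rw [e4]
    linarith

theorem tal_ind {K : ℕ} (g : (Fin K → Bool) → ℝ) (hg : ∀ u, g u = 0 ∨ g u = 1) :
    ∑ u, ∑ u', |g u - g u'| ≤ 2 * 2 ^ K * ∑ u, Real.sqrt (hp g u) := by
  have hN : (0 : ℝ) < 2 ^ K := by positivity
  have h0 : ∀ u, 0 ≤ g u := fun u => by rcases hg u with h | h <;> rw [h] <;> norm_num
  have h1 : ∀ u, g u ≤ 1 := fun u => by rcases hg u with h | h <;> rw [h] <;> norm_num
  have t := tal g h0 h1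
  have e1 : ∀ u, (g u * (1 - g u)) ^ 2 + hp g u = hp g u := by
    intro u; rcases hg u with h | h <;> rw [h] <;> ring
  simp only [e1] at t
  have e2 : ∀ u u', |g u - g u'| = g u + g u' - 2 * (g u * g u') := by
    intro u u'
    rcases hg u with h | h <;> rcases hg u' with h' | h' <;> rw [h, h'] <;> norm_num
  have e3 : ∑ u, ∑ u', |g u - g u'| = 2 * 2 ^ K * (∑ u, g u) - 2 * (∑ u, g u) ^ 2 := by
    simp only [e2, Finset.sum_sub_distrib, Finset.sum_add_distrib, Finset.sum_const,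
      Finset.card_univ, ← Finset.mul_sum, ← Finset.sum_mul]
    simp
    rw [← Finset.mul_sum]
    ring
  rw [e3]
  set S := ∑ u, g u with hS
  set T := ∑ u, Real.sqrt (hp g u) with hT
  have t2 := mul_le_mul_of_nonneg_left t (by positivity : (0 : ℝ) ≤ 2 * (2 ^ K) ^ 2)
  have e4 : 2 * (2 ^ K) ^ 2 * (S / 2 ^ K * (1 - S / 2 ^ K)) = 2 * 2 ^ K * S - 2 * S ^ 2 := by
    field_simp
  have e5 : 2 * ((2 : ℝ) ^ K) ^ 2 * (T / 2 ^ K) = 2 * 2 ^ K * T := by
    field_simp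
  rw [e4, e5] at t2
  exact t2

end Pool.Agent.Emd
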